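import Mathlib

open MeasureTheory Filter Topology
open scoped ComplexConjugate

namespace Pool.Agent.Helper11.NiceRec

lemma norm_fourier_apply (n : ℤ) (θ : UnitAddCircle) : ‖fourier n θ‖ = 1 := by
  rw [fourier_apply]; exact Circle.norm_coe _

lemma fourier_nat (n : ℕ) (θ : UnitAddCircle) : fourier (n : ℤ) θ = (fourier 1 θ) ^ n := by
  induction n with
  | zero => simp
  | succ n ih =>
    rw [pow_succ, ← ih]
    push_cast
    rw [fourier_add]

lemma fourier_one_eq_one (θ : UnitAddCircle) : fourier 1 θ = 1 ↔ θ = 0 := by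
  constructor
  · intro h
    rw [fourier_one] at h
    have h2 : AddCircle.toCircle θ = 1 := by
      apply Subtype.ext
      simpa using h
    have := AddCircle.injective_toCircle (T := (1 : ℝ)) one_ne_zero
    apply this
    rw [h2, AddCircle.toCircle_zero]
  · rintro rfl
    exact fourier_eval_zero 1

lemma avg_norm_le (θ : UnitAddCircle) (N : ℕ) :
    ‖(∑ n ∈ Finset.range N, fourier (n : ℤ) θ) / (N : ℂ)‖ ≤ 1 := by
  rcases Nat.eq_zero_or_pos N with h | h
  · subst h; simp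
  · rw [norm_div, Complex.norm_natCast, div_le_one (by exact_mod_cast h)]
    refine (norm_sum_le _ _).trans ?_
    rw [Finset.sum_congr rfl (fun (n : ℕ) _ => norm_fourier_apply (n : ℤ) θ)]
    simp

lemma tendsto_avg_fourier (θ : UnitAddCircle) :
    Tendsto (fun N : ℕ => (∑ n ∈ Finset.range N, fourier (n : ℤ) θ) / (N : ℂ)) atTop
      (𝓝 (if θ = 0 then 1 else 0)) := by
  split_ifs with h
  · subst h
    refine Tendsto.congr' ?_ tendsto_const_nhds
    filter_upwards [eventually_ne_atTop 0] with N hN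
    simp only [fourier_eval_zero, Finset.sum_const, Finset.card_range, nsmul_eq_mul, mul_one]
    rw [div_self (by exact_mod_cast hN)]
  · have hz : fourier 1 θ ≠ (1 : ℂ) := fun h2 => h ((fourier_one_eq_one θ).1 h2)
    have hz2 : fourier 1 θ - (1 : ℂ) ≠ 0 := sub_ne_zero.2 hz
    have hb : ∀ N : ℕ, ‖∑ n ∈ Finset.range N, fourier (n : ℤ) θ‖ ≤
        2 / ‖fourier 1 θ - (1 : ℂ)‖ := by
      intro N
      simp_rw [fourier_nat]
      rw [geom_sum_eq hz, norm_div]
      gcongr
      refine (norm_sub_le _ _).trans ?_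
      rw [norm_pow, norm_fourier_apply]
      norm_num
    have h0 : Tendsto (fun N : ℕ => (2 / ‖fourier 1 θ - (1 : ℂ)‖) / (N : ℝ)) atTop (𝓝 0) :=
      tendsto_const_div_atTop_nhds_zero_nat _
    refine squeeze_zero_norm (fun N => ?_) h0
    rw [norm_div, Complex.norm_natCast]
    gcongr
    exact hb N

lemma integrable_fourier (ρ : Measure UnitAddCircle) [IsFiniteMeasure ρ] (n : ℤ) :
    Integrable (fun θ => fourier n θ) ρ := by
  refine Integrable.mono' (integrable_const (1 : ℝ)) ?_ ?_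
  · exact (fourier n).continuous.aestronglyMeasurable
  · exact Eventually.of_forall (fun θ => (norm_fourier_apply n θ).le)

lemma fourier_sub (n : ℤ) (x y : UnitAddCircle) :
    fourier n (x - y) = fourier n x * conj (fourier n y) := by
  have h1 : fourier n (x - y) * fourier n y = fourier n x := by
    rw [fourier_apply, fourier_apply, fourier_apply, ← Circle.coe_mul, ← AddCircle.toCircle_add,
      ← smul_add, sub_add_cancel]
  rw [← h1, mul_assoc, Complex.mul_conj, Complex.normSq_eq_norm_sq, norm_fourier_apply]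
  simp

lemma conj_integral_fourier (ρ : Measure UnitAddCircle) (n : ℤ) :
    conj (∫ θ, fourier n θ ∂ρ) = ∫ θ, fourier (-n) θ ∂ρ := by
  rw [← integral_conj]
  simp_rw [fourier_neg]

lemma wiener (ρ : Measure UnitAddCircle) [IsFiniteMeasure ρ] (hρ : ∀ θ, ρ {θ} = 0) (b : ℤ) :
    Tendsto (fun N : ℕ => (∑ n ∈ Finset.range N, ‖∫ θ, fourier ((n : ℤ) + b) θ ∂ρ‖ ^ 2) / (N : ℝ))
      atTop (𝓝 0) := by
  have h1 : ∀ n : ℤ, ((‖∫ θ, fourier n θ ∂ρ‖ ^ 2 : ℝ) : ℂ) =
      ∫ p, fourier n (p.1 - p.2) ∂(ρ.prod ρ) := by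
    intro n
    simp_rw [fourier_sub]
    rw [integral_prod_mul (fun x => fourier n x) (fun y => conj (fourier n y)), integral_conj,
      Complex.mul_conj, Complex.normSq_eq_norm_sq]
  have h2 : ∀ N : ℕ, (((∑ n ∈ Finset.range N, ‖∫ θ, fourier ((n : ℤ) + b) θ ∂ρ‖ ^ 2) /
      (N : ℝ) : ℝ) : ℂ) = ∫ p, fourier b (p.1 - p.2) *
        ((∑ n ∈ Finset.range N, fourier (n : ℤ) (p.1 - p.2)) / (N : ℂ)) ∂(ρ.prod ρ) := by
    intro N
    have h3 : ∀ p : UnitAddCircle × UnitAddCircle, fourier b (p.1 - p.2) *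
        ((∑ n ∈ Finset.range N, fourier (n : ℤ) (p.1 - p.2)) / (N : ℂ)) =
        (∑ n ∈ Finset.range N, fourier ((n : ℤ) + b) (p.1 - p.2)) / (N : ℂ) := by
      intro p
      rw [← mul_div_assoc, Finset.mul_sum]
      congr 1
      refine Finset.sum_congr rfl (fun n _ => ?_)
      rw [fourier_add, mul_comm]
    simp_rw [h3]
    rw [integral_div, integral_finsetSum]
    · push_cast
      congr 1
      refine Finset.sum_congr rfl (fun n _ => ?_)
      rw [← h1]
      push_cast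
      rfl
    · intro n _
      refine Integrable.mono' (integrable_const (1 : ℝ)) ?_ ?_
      · apply Continuous.aestronglyMeasurable
        fun_prop
      · exact Eventually.of_forall (fun θ => (norm_fourier_apply _ _).le)
  have h4 : Tendsto (fun N : ℕ => ∫ p, fourier b (p.1 - p.2) *
        ((∑ n ∈ Finset.range N, fourier (n : ℤ) (p.1 - p.2)) / (N : ℂ)) ∂(ρ.prod ρ)) atTop
        (𝓝 (∫ p, fourier b (p.1 - p.2) *
          (if p.1 - p.2 = 0 then (1 : ℂ) else 0) ∂(ρ.prod ρ))) := by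
    refine tendsto_integral_of_dominated_convergence (fun _ => (1 : ℝ)) ?_ (integrable_const _)
      ?_ ?_
    · intro N
      apply Continuous.aestronglyMeasurable
      fun_prop
    · intro N
      refine Eventually.of_forall (fun p => ?_)
      rw [norm_mul, norm_fourier_apply, one_mul]
      exact avg_norm_le _ _
    · refine Eventually.of_forall (fun p => ?_)
      exact (tendsto_avg_fourier _).const_mul _
  have h5 : ∫ p, fourier b (p.1 - p.2) * (if p.1 - p.2 = 0 then (1 : ℂ) else 0) ∂(ρ.prod ρ)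
      = 0 := by
    have h6 : (fun p : UnitAddCircle × UnitAddCircle =>
        fourier b (p.1 - p.2) * (if p.1 - p.2 = 0 then (1 : ℂ) else 0)) =ᵐ[ρ.prod ρ] 0 := by
      have h7 : (ρ.prod ρ) (Set.diagonal UnitAddCircle) = 0 := by
        rw [Measure.prod_apply measurableSet_diagonal]
        have : ∀ x : UnitAddCircle, ρ (Prod.mk x ⁻¹' Set.diagonal UnitAddCircle) = 0 := by
          intro x
          have : Prod.mk x ⁻¹' Set.diagonal UnitAddCircle = {x} := by
            ext y; simp [eq_comm]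
          rw [this, hρ]
        simp [this]
      have h8 : ∀ᵐ p ∂(ρ.prod ρ), p ∉ Set.diagonal UnitAddCircle := by
        exact measure_eq_zero_iff_ae_notMem.1 h7
      filter_upwards [h8] with p hp
      rw [if_neg]
      · simp
      · intro h
        exact hp (sub_eq_zero.1 h)
    rw [integral_congr_ae h6]
    simp
  rw [h5] at h4
  have h9 : Tendsto (fun N : ℕ => (((∑ n ∈ Finset.range N, ‖∫ θ, fourier ((n : ℤ) + b) θ ∂ρ‖ ^ 2) /
      (N : ℝ) : ℝ) : ℂ)) atTop (𝓝 ((0 : ℝ) : ℂ)) := by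
    simp_rw [h2]
    simpa using h4
  have h10 := (Complex.continuous_re.tendsto _).comp h9
  simp only [Function.comp_def, Complex.ofReal_re] at h10
  exact h10

/-- Real spectral coefficients. -/
noncomputable def cof (ρ : Measure UnitAddCircle) (n : ℤ) : ℝ := (∫ θ, fourier n θ ∂ρ).re

lemma cof_neg (ρ : Measure UnitAddCircle) (n : ℤ) : cof ρ (-n) = cof ρ n := by
  unfold cof
  rw [← conj_integral_fourier, Complex.conj_re]

lemma abs_cof_le_norm (ρ : Measure UnitAddCircle) (n : ℤ) :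
    |cof ρ n| ≤ ‖∫ θ, fourier n θ ∂ρ‖ := Complex.abs_re_le_norm _

lemma norm_int_le (ρ : Measure UnitAddCircle) [IsFiniteMeasure ρ] (n : ℤ) :
    ‖∫ θ, fourier n θ ∂ρ‖ ≤ ρ.real Set.univ := by
  refine (norm_integral_le_of_norm_le_const (C := 1) ?_).trans (by simp)
  exact Eventually.of_forall (fun θ => (norm_fourier_apply n θ).le)

lemma wiener_abs (ρ : Measure UnitAddCircle) [IsFiniteMeasure ρ] (hρ : ∀ θ, ρ {θ} = 0) (b : ℤ) :
    Tendsto (fun N : ℕ => (∑ n ∈ Finset.range N, |cof ρ ((n : ℤ) + b)|) / (N : ℝ))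
      atTop (𝓝 0) := by
  rw [Metric.tendsto_atTop]
  intro ε hε
  have h := wiener ρ hρ b
  rw [Metric.tendsto_atTop] at h
  obtain ⟨N0, hN0⟩ := h (ε / 4 * (ε / 4)) (by positivity)
  refine ⟨N0, fun N hN => ?_⟩
  have h1 := hN0 N hN
  rw [Real.dist_eq, sub_zero] at h1 ⊢
  have h2 : 0 ≤ (∑ n ∈ Finset.range N, ‖∫ θ, fourier ((n : ℤ) + b) θ ∂ρ‖ ^ 2) / (N : ℝ) := by
    positivity
  have h3 : 0 ≤ (∑ n ∈ Finset.range N, |cof ρ ((n : ℤ) + b)|) / (N : ℝ) := by
    positivity
  rw [abs_of_nonneg h2] at h1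
  rw [abs_of_nonneg h3]
  rcases Nat.eq_zero_or_pos N with h | hpos
  · subst h; simpa using hε
  have hNr : (0 : ℝ) < N := by exact_mod_cast hpos
  rw [div_lt_iff₀ hNr] at h1 ⊢
  have h4 : ∀ n ∈ Finset.range N, |cof ρ ((n : ℤ) + b)| ≤
      ε / 4 + ‖∫ θ, fourier ((n : ℤ) + b) θ ∂ρ‖ ^ 2 / (ε / 4) := by
    intro n _
    have h5 := abs_cof_le_norm ρ ((n : ℤ) + b)
    set x := ‖∫ θ, fourier ((n : ℤ) + b) θ ∂ρ‖ with hx
    refine h5.trans ?_
    have h6 : 0 < ε / 4 := by positivity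
    rw [← sub_nonneg]
    have h7 : ε / 4 + x ^ 2 / (ε / 4) - x = ((x - ε / 8) ^ 2 + 3 * ε ^ 2 / 64) / (ε / 4) := by
      field_simp
      ring
    rw [h7]
    positivity
  calc ∑ n ∈ Finset.range N, |cof ρ ((n : ℤ) + b)|
      ≤ ∑ n ∈ Finset.range N, (ε / 4 + ‖∫ θ, fourier ((n : ℤ) + b) θ ∂ρ‖ ^ 2 / (ε / 4)) :=
        Finset.sum_le_sum h4
    _ = N * (ε / 4) + (∑ n ∈ Finset.range N, ‖∫ θ, fourier ((n : ℤ) + b) θ ∂ρ‖ ^ 2) /
        (ε / 4) := by
        rw [Finset.sum_add_distrib, Finset.sum_div]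
        simp
    _ ≤ N * (ε / 4) + (ε / 4 * (ε / 4) * N) / (ε / 4) := by gcongr
    _ = N * (ε / 2) := by field_simp; ring
    _ < ε * N := by nlinarith

end Pool.Agent.Helper11.NiceRec
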