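import Mathlib
import Pool.Agent.Helper11.NiceRec.Circ

open MeasureTheory Filter Topology ProbabilityTheory
open scoped ComplexConjugate ENNReal RealInnerProductSpace

namespace Pool.Agent.Helper11.NiceRec

lemma fourier_add_arg (n : ℤ) (x y : UnitAddCircle) :
    fourier n (x + y) = fourier n x * fourier n y := by
  rw [fourier_apply, fourier_apply, fourier_apply, ← Circle.coe_mul, ← AddCircle.toCircle_add,
    ← smul_add]

/-- The trigonometric polynomial attached to a finitely supported integer sequence. -/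
noncomputable def trig (k : ℕ →₀ ℤ) (θ : UnitAddCircle) : ℂ :=
  k.sum (fun a m => (m : ℂ) * fourier (a : ℤ) θ)

lemma trig_add (k l : ℕ →₀ ℤ) (θ : UnitAddCircle) : trig (k + l) θ = trig k θ + trig l θ := by
  unfold trig
  rw [Finsupp.sum_add_index']
  · intro a; simp
  · intro a m n
    push_cast
    ring

lemma trig_neg (k : ℕ →₀ ℤ) (θ : UnitAddCircle) : trig (-k) θ = - trig k θ := by
  have h := trig_add k (-k) θ
  rw [add_neg_cancel] at h
  have h0 : trig 0 θ = 0 := by simp [trig]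
  rw [h0] at h
  linear_combination -h

lemma trig_single (a : ℕ) (m : ℤ) (θ : UnitAddCircle) :
    trig (Finsupp.single a m) θ = (m : ℂ) * fourier (a : ℤ) θ := by
  unfold trig
  rw [Finsupp.sum_single_index]
  simp

/-- The shift on finitely supported sequences. -/
noncomputable def shiftK (j : ℕ) : (ℕ →₀ ℤ) →+ (ℕ →₀ ℤ) :=
  Finsupp.mapDomain.addMonoidHom (fun a => a + j)

lemma shiftK_single (j a : ℕ) (m : ℤ) :
    shiftK j (Finsupp.single a m) = Finsupp.single (a + j) m := by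
  simp [shiftK, Finsupp.mapDomain_single]

lemma shiftK_shiftK (i j : ℕ) (k : ℕ →₀ ℤ) : shiftK i (shiftK j k) = shiftK (j + i) k := by
  simp only [shiftK, Finsupp.mapDomain.addMonoidHom_apply]
  rw [← Finsupp.mapDomain_comp]
  congr 1
  ext a
  simp [add_assoc]

lemma shiftK_zero (k : ℕ →₀ ℤ) : shiftK 0 k = k := by
  simp only [shiftK, Finsupp.mapDomain.addMonoidHom_apply]
  exact Finsupp.mapDomain_id

lemma trig_shift (j : ℕ) (k : ℕ →₀ ℤ) (θ : UnitAddCircle) :
    trig (shiftK j k) θ = fourier (j : ℤ) θ * trig k θ := by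
  simp only [trig, shiftK, Finsupp.mapDomain.addMonoidHom_apply]
  rw [Finsupp.sum_mapDomain_index (by simp) (by intro a m n; push_cast; ring), Finsupp.mul_sum]
  refine Finsupp.sum_congr (fun a _ => ?_)
  push_cast
  rw [fourier_add]
  ring

lemma continuous_trig (k : ℕ →₀ ℤ) : Continuous (trig k) := by
  unfold trig Finsupp.sum
  fun_prop

lemma norm_trig_le (k : ℕ →₀ ℤ) (θ : UnitAddCircle) :
    ‖trig k θ‖ ≤ k.sum (fun _ m => |(m : ℝ)|) := by
  unfold trig Finsupp.sum
  refine (norm_sum_le _ _).trans (Finset.sum_le_sum (fun a _ => ?_))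
  rw [norm_mul, norm_fourier_apply, mul_one, Complex.norm_intCast]

variable (ρ : Measure UnitAddCircle) [IsFiniteMeasure ρ]

/-- The energy of a trigonometric polynomial. -/
noncomputable def energy (ρ : Measure UnitAddCircle) (k : ℕ →₀ ℤ) : ℝ :=
  ∫ θ, ‖trig k θ‖ ^ 2 ∂ρ

omit [IsFiniteMeasure ρ] in
lemma energy_nonneg (k : ℕ →₀ ℤ) : 0 ≤ energy ρ k :=
  integral_nonneg (fun θ => by positivity)

omit [IsFiniteMeasure ρ] in
lemma energy_shift (j : ℕ) (k : ℕ →₀ ℤ) : energy ρ (shiftK j k) = energy ρ k := by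
  unfold energy
  simp_rw [trig_shift, norm_mul, norm_fourier_apply, one_mul]

omit [IsFiniteMeasure ρ] in
lemma energy_neg (k : ℕ →₀ ℤ) : energy ρ (-k) = energy ρ k := by
  unfold energy
  simp_rw [trig_neg, norm_neg]

/-- The cross term. -/
noncomputable def cross (ρ : Measure UnitAddCircle) (k l : ℕ →₀ ℤ) : ℝ :=
  ∫ θ, (trig k θ * conj (trig l θ)).re ∂ρ

lemma integrable_cont (f : UnitAddCircle → ℝ) (hf : Continuous f) : Integrable f ρ :=
  hf.integrable_of_hasCompactSupport (HasCompactSupport.of_compactSpace _)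

lemma integrable_contC (f : UnitAddCircle → ℂ) (hf : Continuous f) : Integrable f ρ :=
  hf.integrable_of_hasCompactSupport (HasCompactSupport.of_compactSpace _)

lemma energy_add (k l : ℕ →₀ ℤ) :
    energy ρ (k + l) = energy ρ k + energy ρ l + 2 * cross ρ k l := by
  have h1 : ∀ θ, ‖trig (k + l) θ‖ ^ 2 = (‖trig k θ‖ ^ 2 + ‖trig l θ‖ ^ 2) +
      2 * (trig k θ * conj (trig l θ)).re := by
    intro θ
    rw [trig_add, ← Complex.normSq_eq_norm_sq, Complex.normSq_add, Complex.normSq_eq_norm_sq,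
      Complex.normSq_eq_norm_sq]
  have c1 := continuous_trig k
  have c2 := continuous_trig l
  have i1 : Integrable (fun θ => ‖trig k θ‖ ^ 2) ρ := integrable_cont ρ _ (by fun_prop)
  have i2 : Integrable (fun θ => ‖trig l θ‖ ^ 2) ρ := integrable_cont ρ _ (by fun_prop)
  have i3 : Integrable (fun θ => (trig k θ * conj (trig l θ)).re) ρ :=
    integrable_cont ρ _ (by fun_prop)
  have i12 : Integrable (fun θ => ‖trig k θ‖ ^ 2 + ‖trig l θ‖ ^ 2) ρ := i1.add i2
  unfold energy cross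
  simp_rw [h1]
  rw [integral_add i12 (i3.const_mul 2), integral_add i1 i2, integral_const_mul]

lemma cross_shift (j : ℕ) (k l : ℕ →₀ ℤ) :
    cross ρ k (shiftK j l) =
      ∑ a ∈ k.support, ∑ b ∈ l.support, (k a : ℝ) * (l b : ℝ) *
        cof ρ ((j : ℤ) + ((b : ℤ) - a)) := by
  unfold cross
  have h1 : ∀ θ : UnitAddCircle, (trig k θ * conj (trig (shiftK j l) θ)).re =
      (∑ a ∈ k.support, ∑ b ∈ l.support, ((k a : ℝ) * (l b : ℝ) : ℝ) *
        fourier (-((j : ℤ) + ((b : ℤ) - a))) θ : ℂ).re := by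
    intro θ
    congr 1
    rw [trig_shift, map_mul]
    unfold trig Finsupp.sum
    rw [map_sum, Finset.mul_sum, Finset.sum_mul_sum]
    refine Finset.sum_congr rfl (fun a _ => Finset.sum_congr rfl (fun b _ => ?_))
    rw [map_mul, ← fourier_neg, ← fourier_neg,
      show -((j : ℤ) + ((b : ℤ) - a)) = a + (-(j : ℤ) + -(b : ℤ)) by ring, fourier_add,
      fourier_add, ← Complex.ofReal_intCast (l b), Complex.conj_ofReal]
    push_cast
    ring
  simp_rw [h1]
  have h2 : ∫ θ, (∑ a ∈ k.support, ∑ b ∈ l.support, ((k a : ℝ) * (l b : ℝ) : ℝ) *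
        fourier (-((j : ℤ) + ((b : ℤ) - a))) θ : ℂ).re ∂ρ =
      (∫ θ, (∑ a ∈ k.support, ∑ b ∈ l.support, ((k a : ℝ) * (l b : ℝ) : ℝ) *
        fourier (-((j : ℤ) + ((b : ℤ) - a))) θ : ℂ) ∂ρ).re := by
    have := integral_re (𝕜 := ℂ) (μ := ρ) (f := fun θ => (∑ a ∈ k.support, ∑ b ∈ l.support,
      ((k a : ℝ) * (l b : ℝ) : ℝ) * fourier (-((j : ℤ) + ((b : ℤ) - a))) θ : ℂ))
      (integrable_contC ρ _ (by fun_prop))
    exact this
  rw [h2, integral_finsetSum _ (fun a _ => integrable_contC ρ _ (by fun_prop)), Complex.re_sum]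
  refine Finset.sum_congr rfl (fun a _ => ?_)
  rw [integral_finsetSum _ (fun b _ => integrable_contC ρ _ (by fun_prop)), Complex.re_sum]
  refine Finset.sum_congr rfl (fun b _ => ?_)
  rw [integral_const_mul, Complex.re_ofReal_mul, ← cof_neg]
  rfl

lemma tendsto_cross (hρ : ∀ θ, ρ {θ} = 0) (k l : ℕ →₀ ℤ) :
    Tendsto (fun N : ℕ => (∑ j ∈ Finset.range N, |cross ρ k (shiftK j l)|) / (N : ℝ)) atTop
      (𝓝 0) := by
  have h1 : Tendsto (fun N : ℕ => ∑ a ∈ k.support, ∑ b ∈ l.support, |(k a : ℝ) * (l b : ℝ)| *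
      ((∑ j ∈ Finset.range N, |cof ρ ((j : ℤ) + ((b : ℤ) - a))|) / (N : ℝ))) atTop (𝓝 0) := by
    have : (0 : ℝ) = ∑ a ∈ k.support, ∑ b ∈ l.support, |(k a : ℝ) * (l b : ℝ)| * 0 := by simp
    rw [this]
    refine tendsto_finsetSum _ (fun a _ => tendsto_finsetSum _ (fun b _ => ?_))
    exact (wiener_abs ρ hρ _).const_mul _
  refine squeeze_zero (fun N => by positivity) (fun N => ?_) h1
  have h2 : ∀ j ∈ Finset.range N, |cross ρ k (shiftK j l)| ≤
      ∑ a ∈ k.support, ∑ b ∈ l.support, |(k a : ℝ) * (l b : ℝ)| *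
        |cof ρ ((j : ℤ) + ((b : ℤ) - a))| := by
    intro j _
    rw [cross_shift]
    refine (Finset.abs_sum_le_sum_abs _ _).trans (Finset.sum_le_sum (fun a _ => ?_))
    refine (Finset.abs_sum_le_sum_abs _ _).trans (Finset.sum_le_sum (fun b _ => ?_))
    rw [abs_mul]
  calc (∑ j ∈ Finset.range N, |cross ρ k (shiftK j l)|) / (N : ℝ)
      ≤ (∑ j ∈ Finset.range N, ∑ a ∈ k.support, ∑ b ∈ l.support, |(k a : ℝ) * (l b : ℝ)| *
        |cof ρ ((j : ℤ) + ((b : ℤ) - a))|) / (N : ℝ) := by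
        gcongr with j hj
        exact h2 j hj
    _ = _ := by
        rw [Finset.sum_comm, Finset.sum_div]
        refine Finset.sum_congr rfl (fun a _ => ?_)
        rw [Finset.sum_comm, Finset.sum_div]
        refine Finset.sum_congr rfl (fun b _ => ?_)
        rw [← Finset.mul_sum, mul_div_assoc]

/-- The Gaussian characteristic function. -/
noncomputable def phi (ρ : Measure UnitAddCircle) (t : ℝ) (k : ℕ →₀ ℤ) : ℝ :=
  Real.exp (-(t / 2 * energy ρ k))

lemma abs_exp_neg_sub_le {x y : ℝ} (hx : 0 ≤ x) (hy : 0 ≤ y) :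
    |Real.exp (-x) - Real.exp (-y)| ≤ |x - y| := by
  wlog h : x ≤ y generalizing x y
  · rw [abs_sub_comm, abs_sub_comm x y]
    exact this hy hx (le_of_not_ge h)
  rw [abs_of_nonneg (sub_nonneg.2 (Real.exp_le_exp.2 (by linarith))), abs_sub_comm,
    abs_of_nonneg (sub_nonneg.2 h)]
  have h1 : Real.exp (-y) = Real.exp (-x) * Real.exp (-(y - x)) := by
    rw [← Real.exp_add]; congr 1; ring
  rw [h1]
  have h2 : 1 - (y - x) ≤ Real.exp (-(y - x)) := by
    have := Real.add_one_le_exp (-(y - x))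
    linarith
  have h3 : Real.exp (-x) ≤ 1 := Real.exp_le_one_iff.2 (by linarith)
  have h4 : 0 < Real.exp (-x) := Real.exp_pos _
  nlinarith

lemma tendsto_phi (hρ : ∀ θ, ρ {θ} = 0) (t : ℝ) (ht : 0 ≤ t) (k l : ℕ →₀ ℤ) :
    Tendsto (fun N : ℕ => (∑ j ∈ Finset.range N,
      |phi ρ t (k + shiftK j l) - phi ρ t k * phi ρ t l|) / (N : ℝ)) atTop (𝓝 0) := by
  have h1 : Tendsto (fun N : ℕ => t * ((∑ j ∈ Finset.range N,
      |cross ρ k (shiftK j l)|) / (N : ℝ))) atTop (𝓝 0) := by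
    simpa using (tendsto_cross ρ hρ k l).const_mul t
  refine squeeze_zero (fun N => by positivity) (fun N => ?_) h1
  rw [← mul_div_assoc, Finset.mul_sum]
  gcongr with j hj
  have h2 : phi ρ t k * phi ρ t l = Real.exp (-(t / 2 * (energy ρ k + energy ρ l))) := by
    unfold phi
    rw [← Real.exp_add]
    congr 1
    ring
  rw [h2]
  unfold phi
  refine (abs_exp_neg_sub_le ?_ ?_).trans ?_
  · exact mul_nonneg (by positivity) (energy_nonneg ρ _)
  · exact mul_nonneg (by positivity) (add_nonneg (energy_nonneg ρ _) (energy_nonneg ρ _))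
  · rw [energy_add, energy_shift]
    have : t / 2 * (energy ρ k + energy ρ l + 2 * cross ρ k (shiftK j l)) -
        t / 2 * (energy ρ k + energy ρ l) = t * cross ρ k (shiftK j l) := by ring
    rw [this, abs_mul, abs_of_nonneg ht]

end Pool.Agent.Helper11.NiceRec
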