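import Mathlib
import Pool.Agent.Helper11.NiceRec.Trig

open MeasureTheory Filter Topology
open scoped ComplexConjugate ENNReal

namespace Pool.Agent.Helper11.NiceRec

/-- The exponent group. -/
abbrev Gam := UnitAddCircle × (ℕ →₀ ℤ)

/-- The group algebra. -/
abbrev Alg := AddMonoidAlgebra ℂ Gam

/-- A monomial with coefficient. -/
noncomputable def mon (u : UnitAddCircle) (k : ℕ →₀ ℤ) (c : ℂ) : Alg :=
  AddMonoidAlgebra.single (u, k) c

lemma mon_mul (u v : UnitAddCircle) (k l : ℕ →₀ ℤ) (c d : ℂ) :
    mon u k c * mon v l d = mon (u + v) (k + l) (c * d) := by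
  unfold mon
  rw [AddMonoidAlgebra.single_mul_single]
  rfl

lemma one_eq_mon : (1 : Alg) = mon 0 0 1 := rfl

lemma mon_zero (u : UnitAddCircle) (k : ℕ →₀ ℤ) : mon u k 0 = 0 := by
  unfold mon
  exact AddMonoidAlgebra.single_zero _

lemma mon_add (u : UnitAddCircle) (k : ℕ →₀ ℤ) (c d : ℂ) :
    mon u k (c + d) = mon u k c + mon u k d := by
  unfold mon
  exact AddMonoidAlgebra.single_add _ _ _

lemma alg_induction {motive : Alg → Prop} (x : Alg) (zero : motive 0)
    (add : ∀ x y : Alg, motive x → motive y → motive (x + y))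
    (single : ∀ u k c, motive (mon u k c)) : motive x :=
  AddMonoidAlgebra.induction_linear x zero add (fun m r => single m.1 m.2 r)

/-- The shift homomorphism on monomials. -/
noncomputable def tauHom (j : ℕ) : Multiplicative Gam →* Alg where
  toFun γ := mon (Multiplicative.toAdd γ).1 (shiftK j (Multiplicative.toAdd γ).2)
    (fourier (j : ℤ) (Multiplicative.toAdd γ).1)
  map_one' := by
    simp only [toAdd_one, Prod.fst_zero, Prod.snd_zero, map_zero, fourier_eval_zero]
    rfl
  map_mul' x y := by
    simp only [toAdd_mul, Prod.fst_add, Prod.snd_add, map_add]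
    rw [mon_mul, fourier_add_arg]

/-- The shift endomorphism of the group algebra. -/
noncomputable def tau (j : ℕ) : Alg →ₐ[ℂ] Alg := AddMonoidAlgebra.lift ℂ Alg Gam (tauHom j)

lemma tau_mon (j : ℕ) (u : UnitAddCircle) (k : ℕ →₀ ℤ) (c : ℂ) :
    tau j (mon u k c) = mon u (shiftK j k) (c * fourier (j : ℤ) u) := by
  unfold tau
  conv_lhs => rw [mon, AddMonoidAlgebra.lift_single]
  simp only [tauHom, MonoidHom.coe_mk, OneHom.coe_mk, toAdd_ofAdd]
  unfold mon
  rw [AddMonoidAlgebra.smul_single, smul_eq_mul]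

lemma tau_tau (i j : ℕ) (p : Alg) : tau i (tau j p) = tau (j + i) p := by
  induction p using alg_induction with
  | zero => simp
  | add x y hx hy => rw [map_add, map_add, map_add, hx, hy]
  | single u k c =>
    rw [tau_mon, tau_mon, tau_mon, shiftK_shiftK]
    congr 1
    push_cast
    rw [fourier_add]
    ring

/-- The limiting state. -/
noncomputable def Phi (ρ : Measure UnitAddCircle) (t : ℝ) : Alg →ₗ[ℂ] ℂ :=
  (Finsupp.linearCombination ℂ
    (fun γ : Gam => if γ.1 = 0 then (phi ρ t γ.2 : ℂ) else 0)).comp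
    (AddMonoidAlgebra.coeffLinearEquiv ℂ).toLinearMap

lemma Phi_mon (ρ : Measure UnitAddCircle) (t : ℝ) (u : UnitAddCircle) (k : ℕ →₀ ℤ) (c : ℂ) :
    Phi ρ t (mon u k c) = if u = 0 then c * (phi ρ t k : ℂ) else 0 := by
  unfold Phi mon
  simp only [LinearMap.comp_apply, LinearEquiv.coe_coe]
  have : (AddMonoidAlgebra.coeffLinearEquiv ℂ) (AddMonoidAlgebra.single (u, k) c : Alg) =
    Finsupp.single (u, k) c := rfl
  rw [this, Finsupp.linearCombination_single]
  split_ifs <;> simp

lemma Phi_tau_one (ρ : Measure UnitAddCircle) (t : ℝ) (j : ℕ) (p : Alg) :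
    Phi ρ t (tau j p) = Phi ρ t p := by
  induction p using alg_induction with
  | zero => simp
  | add x y hx hy => rw [map_add, map_add, map_add, hx, hy]
  | single u k c =>
    rw [tau_mon, Phi_mon, Phi_mon]
    by_cases h : u = 0
    · rw [if_pos h, if_pos h, h, fourier_eval_zero]
      unfold phi
      rw [energy_shift, mul_one]
    · rw [if_neg h, if_neg h]

lemma tendsto_Phi_mon (ρ : Measure UnitAddCircle) [IsFiniteMeasure ρ] (hρ : ∀ θ, ρ {θ} = 0)
    (t : ℝ) (ht : 0 ≤ t) (u v : UnitAddCircle) (k l : ℕ →₀ ℤ) (c d : ℂ) :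
    Tendsto (fun N : ℕ => (∑ j ∈ Finset.range N, Phi ρ t (mon u k c * tau j (mon v l d))) /
      (N : ℂ)) atTop (𝓝 (Phi ρ t (mon u k c) * Phi ρ t (mon v l d))) := by
  simp_rw [tau_mon, mon_mul, Phi_mon]
  by_cases h : u + v = 0
  · simp only [h, if_true]
    have huv : u = 0 ↔ v = 0 := by
      constructor
      · rintro rfl; simpa using h
      · rintro rfl; simpa using h
    have h1 : ∀ N : ℕ, (∑ j ∈ Finset.range N, c * (d * fourier (j : ℤ) v) *
        (phi ρ t (k + shiftK j l) : ℂ)) / (N : ℂ) =
        c * d * ((∑ j ∈ Finset.range N, fourier (j : ℤ) v *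
          ((phi ρ t (k + shiftK j l) - phi ρ t k * phi ρ t l : ℝ) : ℂ)) / (N : ℂ)) +
        c * d * (phi ρ t k * phi ρ t l) *
          ((∑ j ∈ Finset.range N, fourier (j : ℤ) v) / (N : ℂ)) := by
      intro N
      rw [← mul_div_assoc, ← mul_div_assoc, ← add_div, Finset.mul_sum, Finset.mul_sum,
        ← Finset.sum_add_distrib]
      congr 1
      refine Finset.sum_congr rfl (fun j _ => ?_)
      push_cast
      ring
    simp_rw [h1]
    have h2 : Tendsto (fun N : ℕ => (∑ j ∈ Finset.range N, fourier (j : ℤ) v *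
          ((phi ρ t (k + shiftK j l) - phi ρ t k * phi ρ t l : ℝ) : ℂ)) / (N : ℂ)) atTop
          (𝓝 0) := by
      refine squeeze_zero_norm (fun N => ?_) (tendsto_phi ρ hρ t ht k l)
      rw [norm_div, Complex.norm_natCast]
      gcongr
      refine (norm_sum_le _ _).trans (Finset.sum_le_sum (fun j _ => ?_))
      rw [norm_mul, norm_fourier_apply, one_mul, Complex.norm_real, Real.norm_eq_abs]
    have h3 := (h2.const_mul (c * d)).add
      ((tendsto_avg_fourier v).const_mul (c * d * (phi ρ t k * phi ρ t l)))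
    refine h3.trans (le_of_eq ?_)
    congr 1
    by_cases hv : v = 0
    · rw [if_pos hv, if_pos (huv.2 hv), if_pos hv]
      ring
    · rw [if_neg hv, if_neg hv]
      ring
  · simp only [h, if_false]
    have h0 : (if u = 0 then c * (phi ρ t k : ℂ) else 0) *
        (if v = 0 then d * (phi ρ t l : ℂ) else 0) = 0 := by
      by_cases hu : u = 0
      · have hv : v ≠ 0 := by
          rintro rfl
          exact h (by simp [hu])
        rw [if_neg hv, mul_zero]
      · rw [if_neg hu, zero_mul]
    rw [h0]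
    simp

/-- Cesaro mixing of the state. -/
theorem tendsto_Phi (ρ : Measure UnitAddCircle) [IsFiniteMeasure ρ] (hρ : ∀ θ, ρ {θ} = 0)
    (t : ℝ) (ht : 0 ≤ t) (p q : Alg) :
    Tendsto (fun N : ℕ => (∑ j ∈ Finset.range N, Phi ρ t (p * tau j q)) / (N : ℂ)) atTop
      (𝓝 (Phi ρ t p * Phi ρ t q)) := by
  induction p using alg_induction with
  | zero => simp
  | add x y hx hy =>
    have h := hx.add hy
    rw [map_add, add_mul]
    refine h.congr (fun N => ?_)
    rw [← add_div, ← Finset.sum_add_distrib]
    congr 1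
    refine Finset.sum_congr rfl (fun j _ => ?_)
    rw [add_mul, map_add]
  | single u k c =>
    induction q using alg_induction with
    | zero => simp
    | add x y hx hy =>
      have h := hx.add hy
      rw [map_add, mul_add]
      refine h.congr (fun N => ?_)
      rw [← add_div, ← Finset.sum_add_distrib]
      congr 1
      refine Finset.sum_congr rfl (fun j _ => ?_)
      rw [map_add, mul_add, map_add]
    | single v l d => exact tendsto_Phi_mon ρ hρ t ht u v k l c d

end Pool.Agent.Helper11.NiceRec
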