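import Mathlib
import Pool.Agent.Helper11.NiceRec.Trig

open MeasureTheory Filter Topology ProbabilityTheory
open scoped ComplexConjugate ENNReal RealInnerProductSpace Matrix

namespace Pool.Agent.Helper11.NiceRec

variable (ρ : Measure UnitAddCircle) [IsFiniteMeasure ρ]

/-- The covariance matrix. -/
noncomputable def covM (ρ : Measure UnitAddCircle) (N : ℕ) : Matrix (Fin N) (Fin N) ℝ :=
  Matrix.of fun i j => cof ρ ((i : ℤ) - (j : ℤ))

lemma quad_form (N : ℕ) (x : Fin N → ℝ) :
    x ⬝ᵥ (covM ρ N *ᵥ x) = ∫ θ, ‖∑ a : Fin N, (x a : ℂ) * fourier ((a : ℕ) : ℤ) θ‖ ^ 2 ∂ρ := by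
  have h1 : ∀ θ : UnitAddCircle,
      ((‖∑ a : Fin N, (x a : ℂ) * fourier ((a : ℕ) : ℤ) θ‖ ^ 2 : ℝ) : ℂ) =
      ∑ a : Fin N, ∑ b : Fin N, ((x a * x b : ℝ) : ℂ) *
        fourier (((a : ℕ) : ℤ) - ((b : ℕ) : ℤ)) θ := by
    intro θ
    rw [← Complex.normSq_eq_norm_sq, ← Complex.mul_conj, map_sum, Finset.sum_mul_sum]
    refine Finset.sum_congr rfl (fun a _ => Finset.sum_congr rfl (fun b _ => ?_))
    rw [map_mul, Complex.conj_ofReal, ← fourier_neg, sub_eq_add_neg, fourier_add]
    push_cast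
    ring
  have h2 : ((∫ θ, ‖∑ a : Fin N, (x a : ℂ) * fourier ((a : ℕ) : ℤ) θ‖ ^ 2 ∂ρ : ℝ) : ℂ) =
      ∑ a : Fin N, ∑ b : Fin N, ((x a * x b : ℝ) : ℂ) *
        ∫ θ, fourier (((a : ℕ) : ℤ) - ((b : ℕ) : ℤ)) θ ∂ρ := by
    rw [← integral_complex_ofReal]
    simp_rw [h1]
    rw [integral_finsetSum _ (fun a _ => integrable_contC ρ _ (by fun_prop))]
    refine Finset.sum_congr rfl (fun a _ => ?_)
    rw [integral_finsetSum _ (fun b _ => integrable_contC ρ _ (by fun_prop))]
    refine Finset.sum_congr rfl (fun b _ => ?_)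
    rw [integral_const_mul]
  have h3 := congrArg Complex.re h2
  rw [Complex.ofReal_re, Complex.re_sum] at h3
  rw [h3]
  simp only [dotProduct, Matrix.mulVec, covM, Matrix.of_apply]
  refine Finset.sum_congr rfl (fun a _ => ?_)
  rw [Complex.re_sum, Finset.mul_sum]
  refine Finset.sum_congr rfl (fun b _ => ?_)
  rw [Complex.re_ofReal_mul]
  unfold cof
  ring

lemma covM_posSemidef (N : ℕ) : (covM ρ N).PosSemidef := by
  apply Matrix.PosSemidef.of_dotProduct_mulVec_nonneg
  · ext i j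
    simp only [Matrix.conjTranspose_apply, covM, Matrix.of_apply, star_trivial]
    rw [← cof_neg]
    congr 1
    ring
  · intro x
    rw [star_trivial, quad_form]
    exact integral_nonneg (fun θ => by positivity)

/-- Extension of a finite vector by zero. -/
noncomputable def extv (N : ℕ) (x : EuclideanSpace ℝ (Fin N)) (a : ℕ) : ℝ :=
  if h : a < N then x ⟨a, h⟩ else 0

/-- The pairing of a finitely supported integer sequence with a real sequence. -/
noncomputable def pair (k : ℕ →₀ ℤ) (x : ℕ → ℝ) : ℝ := k.sum (fun a m => (m : ℝ) * x a)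

lemma pair_add (k l : ℕ →₀ ℤ) (x : ℕ → ℝ) : pair (k + l) x = pair k x + pair l x := by
  unfold pair
  rw [Finsupp.sum_add_index']
  · intro a; simp
  · intro a m n
    push_cast
    ring

lemma pair_zero (x : ℕ → ℝ) : pair 0 x = 0 := by simp [pair]

lemma sum_fin_of_support {M : Type*} [AddCommMonoid M] (N : ℕ) (k : ℕ →₀ ℤ)
    (hk : k.support ⊆ Finset.range N) (g : ℕ → ℤ → M) (hg : ∀ a, g a 0 = 0) :
    k.sum g = ∑ a : Fin N, g a (k a) := by
  rw [Finsupp.sum_of_support_subset k hk g (fun a _ => hg a), Finset.sum_range]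

lemma measurable_extv (N a : ℕ) : Measurable (fun x : EuclideanSpace ℝ (Fin N) => extv N x a) := by
  unfold extv
  split_ifs with h
  · fun_prop
  · exact measurable_const

lemma measurable_pair (N : ℕ) (k : ℕ →₀ ℤ) :
    Measurable (fun x : EuclideanSpace ℝ (Fin N) => pair k (extv N x)) := by
  unfold pair Finsupp.sum
  exact Finset.measurable_sum _ (fun a _ => (measurable_extv N a).const_mul _)

/-- The Gaussian measure. -/
noncomputable def gau (ρ : Measure UnitAddCircle) (N : ℕ) :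
    Measure (EuclideanSpace ℝ (Fin N)) := multivariateGaussian 0 (covM ρ N)

instance (N : ℕ) : IsProbabilityMeasure (gau ρ N) := by
  unfold gau
  infer_instance

lemma gau_char (N : ℕ) (s : ℝ) (k : ℕ →₀ ℤ) (hk : k.support ⊆ Finset.range N) :
    ∫ x, Complex.exp (((s * pair k (extv N x) : ℝ) : ℂ) * Complex.I) ∂(gau ρ N) =
      (phi ρ (s ^ 2) k : ℂ) := by
  set v : EuclideanSpace ℝ (Fin N) := WithLp.toLp 2 (fun a : Fin N => s * (k a : ℝ)) with hv
  have h1 : ∀ x : EuclideanSpace ℝ (Fin N), s * pair k (extv N x) = ⟪x, v⟫ := by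
    intro x
    rw [PiLp.inner_apply]
    unfold pair
    rw [sum_fin_of_support N k hk _ (fun a => by simp), Finset.mul_sum]
    refine Finset.sum_congr rfl (fun a _ => ?_)
    simp only [extv, Fin.is_lt, dite_true, Fin.eta, hv]
    simp
    ring
  have h2 : ∫ x, Complex.exp (((s * pair k (extv N x) : ℝ) : ℂ) * Complex.I) ∂(gau ρ N) =
      charFun (gau ρ N) v := by
    rw [charFun_apply]
    simp_rw [h1]
  rw [h2]
  unfold gau
  rw [charFun_multivariateGaussian (covM_posSemidef ρ N)]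
  have h3 : (v.ofLp ⬝ᵥ (covM ρ N *ᵥ v.ofLp)) = s ^ 2 * energy ρ k := by
    rw [quad_form]
    unfold energy
    rw [← integral_const_mul]
    refine integral_congr_ae (Eventually.of_forall (fun θ => ?_))
    simp only
    have h4 : ∑ a : Fin N, ((v.ofLp a : ℝ) : ℂ) * fourier ((a : ℕ) : ℤ) θ =
        (s : ℂ) * trig k θ := by
      unfold trig
      rw [sum_fin_of_support N k hk _ (fun a => by simp), Finset.mul_sum]
      refine Finset.sum_congr rfl (fun a _ => ?_)
      simp only [hv]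
      push_cast
      ring
    rw [h4, norm_mul, mul_pow, Complex.norm_real, Real.norm_eq_abs, sq_abs]
  rw [h3]
  unfold phi
  rw [inner_zero_right]
  push_cast
  congr 1
  ring

end Pool.Agent.Helper11.NiceRec
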