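import Mathlib
import Pool.Agent.Helper11.NiceRec.Circ

open MeasureTheory Filter Topology BoundedContinuousFunction
open scoped ComplexConjugate ENNReal

namespace Pool.Agent.Helper11.NiceRec

/-- Weak limit along the hyperfilter on a compact space. -/
lemma exists_weak_limit {E : Type*} [TopologicalSpace E] [CompactSpace E] [T2Space E]
    [MeasurableSpace E] [BorelSpace E] (μs : ℕ → ProbabilityMeasure E) :
    ∃ μ : ProbabilityMeasure E, Tendsto μs (hyperfilter ℕ) (𝓝 μ) := by
  obtain ⟨μ, -, hμ⟩ := (isCompact_univ (X := ProbabilityMeasure E)).ultrafilter_le_nhds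
    ((hyperfilter ℕ).map μs) (by simp)
  exact ⟨μ, hμ⟩

lemma exists_weak_limit' {E : Type*} [TopologicalSpace E] [CompactSpace E] [T2Space E]
    [MeasurableSpace E] [BorelSpace E] (μs : ℕ → Measure E)
    (hμs : ∀ n, IsProbabilityMeasure (μs n)) :
    ∃ μ : Measure E, IsProbabilityMeasure μ ∧ ∀ g : C(E, ℂ), ∀ c : ℂ,
      Tendsto (fun n => ∫ x, g x ∂(μs n)) atTop (𝓝 c) → ∫ x, g x ∂μ = c := by
  obtain ⟨μ, hμ⟩ := exists_weak_limit (fun n => (⟨μs n, hμs n⟩ : ProbabilityMeasure E))
  refine ⟨μ, inferInstance, fun g c hg => ?_⟩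
  have hμ' := (ProbabilityMeasure.tendsto_iff_forall_integral_rclike_tendsto ℂ).1 hμ
  have h1 := hμ' (BoundedContinuousFunction.mkOfCompact g)
  have h2 : Tendsto (fun n => ∫ x, g x ∂(μs n)) (hyperfilter ℕ) (𝓝 c) :=
    hg.mono_left Nat.hyperfilter_le_atTop
  exact tendsto_nhds_unique h1 h2

lemma integral_haar_fourier (n : ℤ) :
    ∫ θ, fourier n θ ∂(AddCircle.haarAddCircle (T := (1 : ℝ))) = if n = 0 then 1 else 0 := by
  have h := congrFun (fourierCoeff_fourier (T := (1 : ℝ)) n) 0
  rw [fourierCoeff] at h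
  simp only [neg_zero, fourier_zero, one_smul] at h
  rw [h, Pi.single_apply]
  simp only [eq_comm]

lemma herglotz (r : ℤ → ℝ) (hr0 : 0 < r 0) (d : ℕ → UnitAddCircle → ℝ)
    (hd0 : ∀ N θ, 0 ≤ d N θ)
    (hd : ∀ N θ, (d N θ : ℂ) = (∑ j ∈ Finset.range N, ∑ l ∈ Finset.range N,
      (r ((j : ℤ) - l) : ℂ) * fourier ((l : ℤ) - j) θ) / (N : ℂ)) :
    ∃ σ : Measure UnitAddCircle, IsFiniteMeasure σ ∧
      ∀ n : ℕ, ∫ θ, fourier (n : ℤ) θ ∂σ = r n := by
  have hdc : ∀ N, Continuous (d N) := by
    intro N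
    have : d N = fun θ => ((∑ j ∈ Finset.range N, ∑ l ∈ Finset.range N,
      (r ((j : ℤ) - l) : ℂ) * fourier ((l : ℤ) - j) θ) / (N : ℂ)).re := by
      ext θ
      rw [← hd, Complex.ofReal_re]
    rw [this]
    apply Complex.continuous_re.comp
    fun_prop
  -- Fourier integrals of the densities
  have hint : ∀ (N n : ℕ), ∫ θ, fourier (n : ℤ) θ * (d N θ : ℂ)
      ∂(AddCircle.haarAddCircle (T := (1 : ℝ))) = ((N - n : ℕ) : ℂ) * r n / N := by
    intro N n
    have h1 : ∀ θ : UnitAddCircle, fourier (n : ℤ) θ * (d N θ : ℂ) =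
        (∑ j ∈ Finset.range N, ∑ l ∈ Finset.range N,
          (r ((j : ℤ) - l) : ℂ) * fourier ((n : ℤ) + ((l : ℤ) - j)) θ) / (N : ℂ) := by
      intro θ
      rw [hd, ← mul_div_assoc, Finset.mul_sum]
      congr 1
      refine Finset.sum_congr rfl (fun j _ => ?_)
      rw [Finset.mul_sum]
      refine Finset.sum_congr rfl (fun l _ => ?_)
      rw [fourier_add]
      ring
    simp_rw [h1]
    rw [integral_div]
    congr 1
    rw [integral_finsetSum]
    swap
    · intro j _
      refine integrable_finsetSum _ (fun l _ => ?_)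
      exact (integrable_fourier _ _).const_mul _
    have h2 : ∀ j ∈ Finset.range N, ∫ θ, ∑ l ∈ Finset.range N,
          (r ((j : ℤ) - l) : ℂ) * fourier ((n : ℤ) + ((l : ℤ) - j)) θ
          ∂(AddCircle.haarAddCircle (T := (1 : ℝ))) =
        ∑ l ∈ Finset.range N, if j = n + l then (r n : ℂ) else 0 := by
      intro j _
      rw [integral_finsetSum]
      · refine Finset.sum_congr rfl (fun l _ => ?_)
        rw [integral_const_mul, integral_haar_fourier]
        by_cases h : j = n + l
        · rw [if_pos h, if_pos (by omega), mul_one]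
          congr 2
          omega
        · rw [if_neg h, if_neg (by omega), mul_zero]
      · intro l _
        exact (integrable_fourier _ _).const_mul _
    rw [Finset.sum_congr rfl h2, Finset.sum_comm]
    have h3 : ∀ l ∈ Finset.range N, (∑ j ∈ Finset.range N, if j = n + l then (r n : ℂ) else 0) =
        if l < N - n then (r n : ℂ) else 0 := by
      intro l hl
      rw [Finset.sum_ite_eq' (Finset.range N) (n + l)]
      simp only [Finset.mem_range] at hl ⊢
      by_cases h : n + l < N
      · rw [if_pos h, if_pos (by omega)]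
      · rw [if_neg h, if_neg (by omega)]
    rw [Finset.sum_congr rfl h3, ← Finset.sum_filter, Finset.sum_const, nsmul_eq_mul]
    congr 2
    have : (Finset.range N).filter (fun l => l < N - n) = Finset.range (N - n) := by
      ext l
      simp only [Finset.mem_filter, Finset.mem_range]
      omega
    rw [this, Finset.card_range]
  -- the approximating probability measures
  let σs : ℕ → Measure UnitAddCircle := fun N =>
    (AddCircle.haarAddCircle (T := (1 : ℝ))).withDensity
      (fun θ => ENNReal.ofReal (d (N + 1) θ / r 0))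
  have hmeas : ∀ N, Measurable (fun θ => ENNReal.ofReal (d (N + 1) θ / r 0)) := by
    intro N
    exact ((hdc (N + 1)).measurable.div_const _).ennreal_ofReal
  have hσint : ∀ (N : ℕ) (g : UnitAddCircle → ℂ), ∫ θ, g θ ∂(σs N) =
      ∫ θ, g θ * ((d (N + 1) θ / r 0 : ℝ) : ℂ) ∂(AddCircle.haarAddCircle (T := (1 : ℝ))) := by
    intro N g
    rw [integral_withDensity_eq_integral_toReal_smul (hmeas N)
      (Eventually.of_forall (fun _ => ENNReal.ofReal_lt_top))]
    refine integral_congr_ae (Eventually.of_forall (fun θ => ?_))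
    simp only
    rw [ENNReal.toReal_ofReal (div_nonneg (hd0 _ _) hr0.le), Complex.real_smul, mul_comm]
  have hσfour : ∀ N n : ℕ, ∫ θ, fourier (n : ℤ) θ ∂(σs N) =
      ((N + 1 - n : ℕ) : ℂ) * r n / ((N + 1 : ℕ) : ℂ) / r 0 := by
    intro N n
    rw [hσint, ← hint (N + 1) n, ← integral_div]
    refine integral_congr_ae (Eventually.of_forall (fun θ => ?_))
    simp only
    push_cast
    ring
  have hprob : ∀ N, IsProbabilityMeasure (σs N) := by
    intro N
    refine ⟨?_⟩
    rw [withDensity_apply _ MeasurableSet.univ, Measure.restrict_univ,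
      ← ofReal_integral_eq_lintegral_ofReal]
    · have h := hint (N + 1) 0
      simp only [Nat.cast_zero, fourier_zero, one_mul, Nat.sub_zero] at h
      rw [integral_complex_ofReal] at h
      have h2 : ∫ θ, d (N + 1) θ ∂(AddCircle.haarAddCircle (T := (1 : ℝ))) = r 0 := by
        have h3 : ((N + 1 : ℕ) : ℂ) ≠ 0 := by exact_mod_cast Nat.succ_ne_zero N
        have h4 : (((∫ θ, d (N + 1) θ ∂(AddCircle.haarAddCircle (T := (1 : ℝ)))) : ℝ) : ℂ) =
            ((r 0 : ℝ) : ℂ) := by
          rw [h, mul_comm, mul_div_assoc, div_self h3, mul_one]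
        exact_mod_cast h4
      rw [integral_div, h2, div_self hr0.ne']
      simp
    · refine Integrable.div_const ?_ _
      have := (hdc (N + 1))
      exact this.integrable_of_hasCompactSupport (HasCompactSupport.of_compactSpace _)
    · exact Eventually.of_forall (fun θ => div_nonneg (hd0 _ _) hr0.le)
  obtain ⟨σ, hσ, hlim⟩ := exists_weak_limit' σs hprob
  have hfour : ∀ n : ℕ, ∫ θ, fourier (n : ℤ) θ ∂σ = (r n : ℂ) / r 0 := by
    intro n
    apply hlim
    simp_rw [hσfour]
    apply Tendsto.div_const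
    have h5 : Tendsto (fun N : ℕ => (((N + 1 : ℕ) : ℂ) - n) * r n / ((N + 1 : ℕ) : ℂ)) atTop
        (𝓝 (r n)) := by
      have h6 : ∀ N : ℕ, (((N + 1 : ℕ) : ℂ) - n) * r n / ((N + 1 : ℕ) : ℂ) =
          r n - (n * r n) / ((N + 1 : ℕ) : ℂ) := by
        intro N
        have h3 : ((N + 1 : ℕ) : ℂ) ≠ 0 := by exact_mod_cast Nat.succ_ne_zero N
        field_simp
      simp_rw [h6]
      have h7 : Tendsto (fun N : ℕ => ((n : ℂ) * r n) / ((N + 1 : ℕ) : ℂ)) atTop (𝓝 0) :=
        (tendsto_const_div_atTop_nhds_zero_nat (𝕜 := ℂ) _).comp (tendsto_add_atTop_nat 1)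
      simpa using tendsto_const_nhds.sub h7
    refine h5.congr' ?_
    filter_upwards [eventually_ge_atTop n] with N hN
    congr 2
    push_cast [Nat.cast_sub (by omega : n ≤ N + 1)]
    rfl
  refine ⟨ENNReal.ofReal (r 0) • σ, ?_, fun n => ?_⟩
  · constructor
    rw [Measure.smul_apply, measure_univ]
    simp
  · rw [integral_smul_measure, hfour n, ENNReal.toReal_ofReal hr0.le, Complex.real_smul]
    have : (r 0 : ℂ) ≠ 0 := by exact_mod_cast hr0.ne'
    field_simp

end Pool.Agent.Helper11.NiceRec
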