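import Mathlib

open MeasureTheory Filter Topology

namespace Pool.Agent.Helper11.NiceRec

/-- The set of binary sequences equal to true on the finite set F. -/
def cyl (F : Finset ℕ) : Set (ℕ → Bool) := {x | ∀ n ∈ F, x n = true}

/-- The one-sided shift on binary sequences. -/
def shift (x : ℕ → Bool) : ℕ → Bool := fun n => x (n + 1)

lemma measurable_shift : Measurable shift := by
  unfold shift
  exact measurable_pi_lambda _ (fun n => measurable_pi_apply (n + 1))

lemma measurableSet_cyl (F : Finset ℕ) : MeasurableSet (cyl F) := by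
  have : cyl F = ⋂ n ∈ F, (fun x : ℕ → Bool => x n) ⁻¹' {true} := by
    ext x; simp [cyl]
  rw [this]
  refine Finset.measurableSet_biInter F (fun n _ => ?_)
  exact measurable_pi_apply n (measurableSet_singleton true)

lemma cyl_inter (F G : Finset ℕ) : cyl F ∩ cyl G = cyl (F ∪ G) := by
  ext x
  simp only [cyl, Set.mem_inter_iff, Set.mem_ofPred_eq, Finset.mem_union]
  constructor
  · rintro ⟨h1, h2⟩ n (h | h)
    · exact h1 n h
    · exact h2 n h
  · intro h
    exact ⟨fun n hn => h n (Or.inl hn), fun n hn => h n (Or.inr hn)⟩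

lemma iterate_shift (j : ℕ) (x : ℕ → Bool) (n : ℕ) : (shift^[j] x) n = x (n + j) := by
  induction j generalizing x with
  | zero => simp
  | succ j ih =>
    rw [Function.iterate_succ_apply, ih]
    simp [shift, add_assoc]

lemma preimage_cyl (j : ℕ) (F : Finset ℕ) :
    (shift^[j]) ⁻¹' cyl F = cyl (F.image (fun n => n + j)) := by
  ext x
  simp [cyl, iterate_shift]

lemma isPiSystem_cyl : IsPiSystem (Set.range cyl) := by
  rintro _ ⟨F, rfl⟩ _ ⟨G, rfl⟩ _
  exact ⟨F ∪ G, (cyl_inter F G).symm⟩

lemma generate_cyl :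
    (MeasurableSpace.pi : MeasurableSpace (ℕ → Bool)) =
      MeasurableSpace.generateFrom (Set.range cyl) := by
  apply le_antisymm
  · refine iSup_le (fun n => ?_)
    rw [← measurable_iff_comap_le]
    refine @measurable_to_bool _ (MeasurableSpace.generateFrom (Set.range cyl)) _ ?_
    apply MeasurableSpace.measurableSet_generateFrom
    refine ⟨{n}, ?_⟩
    ext x
    simp [cyl]
  · apply MeasurableSpace.generateFrom_le
    rintro _ ⟨F, rfl⟩
    exact measurableSet_cyl F

lemma cyl_empty : cyl ∅ = Set.univ := by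
  ext x; simp [cyl]

/-- Cesaro means of real sequences. -/
lemma measurePreserving_shift (P : Measure (ℕ → Bool)) [IsProbabilityMeasure P]
    (hinv : ∀ F : Finset ℕ, P (cyl (F.image (fun n => n + 1))) = P (cyl F)) :
    MeasurePreserving shift P P := by
  refine ⟨measurable_shift, ?_⟩
  refine ext_of_generate_finite (Set.range cyl) generate_cyl isPiSystem_cyl ?_ ?_
  · rintro _ ⟨F, rfl⟩
    rw [Measure.map_apply measurable_shift (measurableSet_cyl F), ← hinv F]
    have := preimage_cyl 1 F
    simp only [Function.iterate_one] at this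
    rw [this]
  · rw [Measure.map_apply measurable_shift MeasurableSet.univ]
    simp

/-- The pi-lambda step. -/
lemma mix_left (P : Measure (ℕ → Bool)) [IsProbabilityMeasure P]
    (E : ℕ → Set (ℕ → Bool)) (hE : ∀ j, MeasurableSet (E j)) (c : ℝ)
    (hEc : Tendsto (fun N : ℕ => (∑ j ∈ Finset.range N, P.real (E j)) / N) atTop (𝓝 c))
    (hmix : ∀ F : Finset ℕ, Tendsto (fun N : ℕ =>
      (∑ j ∈ Finset.range N, P.real (cyl F ∩ E j)) / N) atTop (𝓝 (P.real (cyl F) * c)))
    (C : Set (ℕ → Bool)) (hC : MeasurableSet C) :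
    Tendsto (fun N : ℕ =>
      (∑ j ∈ Finset.range N, P.real (C ∩ E j)) / N) atTop (𝓝 (P.real C * c)) := by
  have hc0 : 0 ≤ c := by
    refine ge_of_tendsto' hEc (fun N => ?_)
    positivity
  have hc1 : c ≤ 1 := by
    refine le_of_tendsto' hEc (fun N => ?_)
    rcases Nat.eq_zero_or_pos N with h | h
    · subst h; simp
    · rw [div_le_one (by exact_mod_cast h)]
      calc ∑ j ∈ Finset.range N, P.real (E j) ≤ ∑ j ∈ Finset.range N, (1 : ℝ) := by
            refine Finset.sum_le_sum (fun j _ => ?_)
            exact measureReal_le_one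
        _ = N := by simp
  refine MeasurableSpace.induction_on_inter
    (C := fun C _ => Tendsto (fun N : ℕ =>
      (∑ j ∈ Finset.range N, P.real (C ∩ E j)) / N) atTop (𝓝 (P.real C * c)))
    generate_cyl isPiSystem_cyl ?_ ?_ ?_ ?_ C hC
  · simp
  · rintro _ ⟨F, rfl⟩
    exact hmix F
  · intro D hD ih
    have h1 : ∀ N : ℕ, (∑ j ∈ Finset.range N, P.real (Dᶜ ∩ E j)) / N =
        (∑ j ∈ Finset.range N, P.real (E j)) / N -
          (∑ j ∈ Finset.range N, P.real (D ∩ E j)) / N := by
      intro N
      rw [← sub_div, ← Finset.sum_sub_distrib]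
      congr 1
      refine Finset.sum_congr rfl (fun j _ => ?_)
      have := measureReal_inter_add_sdiff (μ := P) (s := E j) hD
      rw [Set.inter_comm D (E j), ← this]
      rw [Set.sdiff_eq, Set.inter_comm Dᶜ]
      ring
    simp_rw [h1]
    have h2 : P.real Dᶜ * c = c - P.real D * c := by
      rw [measureReal_compl hD]
      simp
      ring
    rw [h2]
    exact hEc.sub ih
  · intro D hdisj hD ih
    -- use finite unions plus a uniformly small tail
    rw [Metric.tendsto_atTop]
    intro ε hε
    have hsum : HasSum (fun k => P.real (D k)) (P.real (⋃ k, D k)) := by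
      have h := measure_iUnion (μ := P) hdisj hD
      have h2 : (∑' k, P (D k)) ≠ ⊤ := by rw [← h]; exact measure_ne_top _ _
      have h3 := (ENNReal.summable_toReal h2).hasSum
      rw [← ENNReal.tsum_toReal_eq (fun k => measure_ne_top _ _), ← h] at h3
      exact h3
    have htail := hsum.tendsto_sum_nat
    rw [Metric.tendsto_atTop] at htail
    obtain ⟨K, hK⟩ := htail (ε / 4) (by positivity)
    have hK := hK K le_rfl
    rw [Real.dist_eq, abs_sub_comm] at hK
    set T : Set (ℕ → Bool) := ⋃ k, D k with hT
    -- finite part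
    have hfin : Tendsto (fun N : ℕ => ∑ k ∈ Finset.range K,
        (∑ j ∈ Finset.range N, P.real (D k ∩ E j)) / (N : ℝ)) atTop
        (𝓝 (∑ k ∈ Finset.range K, P.real (D k) * c)) :=
      tendsto_finsetSum _ (fun k _ => ih k)
    rw [Metric.tendsto_atTop] at hfin
    obtain ⟨N0, hN0⟩ := hfin (ε / 2) (by positivity)
    refine ⟨N0, fun N hN => ?_⟩
    have hfin2 := hN0 N hN
    -- set-level estimate
    have hset : ∀ j, P.real (T ∩ E j) - ∑ k ∈ Finset.range K, P.real (D k ∩ E j) ≤
        P.real T - ∑ k ∈ Finset.range K, P.real (D k) ∧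
        0 ≤ P.real (T ∩ E j) - ∑ k ∈ Finset.range K, P.real (D k ∩ E j) := by
      intro j
      have hU : MeasurableSet (⋃ k ∈ Finset.range K, D k) :=
        Finset.measurableSet_biUnion _ (fun k _ => hD k)
      have hdj : (↑(Finset.range K) : Set ℕ).PairwiseDisjoint D := by
        intro a _ b _ hab
        exact hdisj hab
      have hdj2 : (↑(Finset.range K) : Set ℕ).PairwiseDisjoint (fun k => D k ∩ E j) := by
        intro a _ b _ hab
        exact (hdisj hab).mono Set.inter_subset_left Set.inter_subset_left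
      have e1 : ∑ k ∈ Finset.range K, P.real (D k) = P.real (⋃ k ∈ Finset.range K, D k) := by
        rw [measureReal_biUnion_finset hdj (fun k _ => hD k)]
      have e2 : ∑ k ∈ Finset.range K, P.real (D k ∩ E j) =
          P.real ((⋃ k ∈ Finset.range K, D k) ∩ E j) := by
        rw [← measureReal_biUnion_finset hdj2 (fun k _ => (hD k).inter (hE j))]
        congr 1
        simp only [Set.iUnion_inter]
      have hsub : (⋃ k ∈ Finset.range K, D k) ⊆ T := by
        intro x hx
        simp only [Set.mem_iUnion] at hx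
        obtain ⟨k, _, hk⟩ := hx
        exact Set.mem_iUnion.2 ⟨k, hk⟩
      have e3 : P.real T - P.real (⋃ k ∈ Finset.range K, D k) =
          P.real (T \ (⋃ k ∈ Finset.range K, D k)) := by
        rw [measureReal_sdiff hsub hU]
      have e4 : P.real (T ∩ E j) - P.real ((⋃ k ∈ Finset.range K, D k) ∩ E j) =
          P.real ((T ∩ E j) \ ((⋃ k ∈ Finset.range K, D k) ∩ E j)) := by
        rw [measureReal_sdiff (Set.inter_subset_inter_left _ hsub) (hU.inter (hE j))]
      rw [e1, e2, e3, e4]
      refine ⟨measureReal_mono ?_, measureReal_nonneg⟩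
      intro x hx
      simp only [Set.mem_sdiff, Set.mem_inter_iff, not_and] at hx ⊢
      exact ⟨hx.1.1, fun h => hx.2 h hx.1.2⟩
    have htl : P.real T - ∑ k ∈ Finset.range K, P.real (D k) < ε / 4 :=
      lt_of_abs_lt hK
    have htl0 : 0 ≤ P.real T - ∑ k ∈ Finset.range K, P.real (D k) := by
      have := hset 0
      linarith [this.1, this.2]
    -- averages
    have havg : |(∑ j ∈ Finset.range N, P.real (T ∩ E j)) / (N : ℝ) -
        ∑ k ∈ Finset.range K, (∑ j ∈ Finset.range N, P.real (D k ∩ E j)) / (N : ℝ)| ≤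
        P.real T - ∑ k ∈ Finset.range K, P.real (D k) := by
      rw [← Finset.sum_div, Finset.sum_comm, ← sub_div, ← Finset.sum_sub_distrib]
      rcases Nat.eq_zero_or_pos N with h | h
      · subst h; simpa using htl0
      · rw [abs_div, Nat.abs_cast, div_le_iff₀ (by exact_mod_cast h)]
        refine (Finset.abs_sum_le_sum_abs _ _).trans ?_
        calc _ ≤ ∑ j ∈ Finset.range N, (P.real T - ∑ k ∈ Finset.range K, P.real (D k)) := by
              refine Finset.sum_le_sum (fun j _ => ?_)
              rw [abs_of_nonneg (hset j).2]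
              exact (hset j).1
          _ = _ := by simp; ring
    rw [Real.dist_eq] at hfin2 ⊢
    have h5 : |∑ k ∈ Finset.range K, P.real (D k) * c - P.real T * c| ≤
        P.real T - ∑ k ∈ Finset.range K, P.real (D k) := by
      rw [← Finset.sum_mul, ← sub_mul, abs_mul, abs_of_nonneg hc0, abs_sub_comm,
        abs_of_nonneg htl0]
      nlinarith
    have h6 : (∑ j ∈ Finset.range N, P.real (T ∩ E j)) / (N : ℝ) - P.real T * c =
      ((∑ j ∈ Finset.range N, P.real (T ∩ E j)) / (N : ℝ) -
        ∑ k ∈ Finset.range K, (∑ j ∈ Finset.range N, P.real (D k ∩ E j)) / (N : ℝ)) +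
      ((∑ k ∈ Finset.range K, (∑ j ∈ Finset.range N, P.real (D k ∩ E j)) / (N : ℝ)) -
        ∑ k ∈ Finset.range K, P.real (D k) * c) +
      (∑ k ∈ Finset.range K, P.real (D k) * c - P.real T * c) := by ring
    rw [h6]
    refine (abs_add_three _ _ _).trans_lt ?_
    linarith

theorem ergodic_shift (P : Measure (ℕ → Bool)) [IsProbabilityMeasure P]
    (hinv : ∀ F : Finset ℕ, P (cyl (F.image (fun n => n + 1))) = P (cyl F))
    (hmix : ∀ F G : Finset ℕ, Tendsto (fun N : ℕ =>
      (∑ j ∈ Finset.range N, P.real (cyl F ∩ (shift^[j]) ⁻¹' cyl G)) / N) atTop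
      (𝓝 (P.real (cyl F) * P.real (cyl G)))) :
    Ergodic shift P := by
  have hmp := measurePreserving_shift P hinv
  refine ⟨hmp, ⟨fun {B} hB hBinv => ?_⟩⟩
  have hit : ∀ j, MeasurePreserving (shift^[j]) P P := fun j => hmp.iterate j
  have hBj : ∀ j : ℕ, (shift^[j]) ⁻¹' B = B := by
    intro j
    induction j with
    | zero => simp
    | succ j ih =>
      rw [Function.iterate_succ, Set.preimage_comp, ih, hBinv]
  have key : ∀ G : Finset ℕ, P.real (B ∩ cyl G) = P.real B * P.real (cyl G) := by
    intro G
    have h1 := mix_left P (fun j => (shift^[j]) ⁻¹' cyl G)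
      (fun j => (hit j).measurable (measurableSet_cyl G)) (P.real (cyl G))
      (by
        have := hmix ∅ G
        simpa [cyl_empty] using this)
      (fun F => hmix F G) B hB
    have h2 : ∀ N : ℕ, N ≠ 0 →
        (∑ j ∈ Finset.range N, P.real (B ∩ (shift^[j]) ⁻¹' cyl G)) / N =
        P.real (B ∩ cyl G) := by
      intro N hN
      have h3 : ∀ j, P.real (B ∩ (shift^[j]) ⁻¹' cyl G) = P.real (B ∩ cyl G) := by
        intro j
        have : B ∩ (shift^[j]) ⁻¹' cyl G = (shift^[j]) ⁻¹' (B ∩ cyl G) := by
          rw [Set.preimage_inter, hBj]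
        rw [this, measureReal_def, (hit j).measure_preimage
          (hB.inter (measurableSet_cyl G)).nullMeasurableSet, measureReal_def]
      simp only [h3, Finset.sum_const, Finset.card_range, nsmul_eq_mul]
      field_simp
    have h4 : Tendsto (fun N : ℕ =>
        (∑ j ∈ Finset.range N, P.real (B ∩ (shift^[j]) ⁻¹' cyl G)) / N) atTop
        (𝓝 (P.real (B ∩ cyl G))) := by
      refine Tendsto.congr' ?_ tendsto_const_nhds
      filter_upwards [eventually_ne_atTop 0] with N hN
      exact (h2 N hN).symm
    exact tendsto_nhds_unique h4 h1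
  have key2 : P.restrict B = P B • P := by
    refine ext_of_generate_finite (Set.range cyl) generate_cyl isPiSystem_cyl ?_ ?_
    · rintro _ ⟨G, rfl⟩
      rw [Measure.restrict_apply (measurableSet_cyl G), Measure.smul_apply, smul_eq_mul]
      have := key G
      rw [Set.inter_comm]
      have h5 := congrArg ENNReal.ofReal this
      rw [ENNReal.ofReal_mul measureReal_nonneg, ofReal_measureReal,
        ofReal_measureReal, ofReal_measureReal] at h5
      exact h5
    · simp
  have key3 : P B = P B * P B := by
    have := congrArg (fun m : Measure (ℕ → Bool) => m B) key2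
    simpa [Measure.restrict_apply hB] using this
  have h01 : P B = 0 ∨ P B = 1 := by
    by_cases h : P B = 0
    · exact Or.inl h
    · right
      have hfin : P B ≠ ⊤ := measure_ne_top _ _
      have : P B * 1 = P B * P B := by rw [mul_one]; exact key3
      exact ((ENNReal.mul_right_inj h hfin).1 this).symm
  rw [Filter.eventuallyConst_set']
  rcases h01 with h | h
  · left
    exact ae_eq_empty.2 h
  · right
    exact ae_eq_univ.2 ((prob_compl_eq_zero_iff hB).2 h)

end Pool.Agent.Helper11.NiceRec
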