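import Mathlib
import Pool.Agent.Helper11.NiceRec.Erg
import Pool.Agent.Helper11.NiceRec.Circ

open MeasureTheory Filter Topology
open scoped ComplexConjugate ENNReal

namespace Pool.Agent.Helper11.NiceRec

/-- Uniform measure on the unit interval. -/
noncomputable def unif : Measure ℝ := volume.restrict (Set.Icc 0 1)

instance : IsProbabilityMeasure unif := by
  unfold unif
  refine ⟨?_⟩
  simp

lemma unif_Iic (a : ℝ) (_h0 : 0 ≤ a) (h1 : a ≤ 1) : unif (Set.Iic a) = ENNReal.ofReal a := by
  unfold unif
  rw [Measure.restrict_apply measurableSet_Iic]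
  have : Set.Iic a ∩ Set.Icc 0 1 = Set.Icc 0 a := by
    ext x
    simp only [Set.mem_inter_iff, Set.mem_Iic, Set.mem_Icc]
    constructor
    · rintro ⟨h2, h3, h4⟩
      exact ⟨h3, h2⟩
    · rintro ⟨h2, h3⟩
      exact ⟨h3, h2, h3.trans h1⟩
  rw [this, Real.volume_Icc, sub_zero]

/-- A process of independent coins with random biases. -/
lemma realize {Ω : Type*} [MeasurableSpace Ω] (Pr : Measure Ω) [IsProbabilityMeasure Pr]
    (h : ℕ → Ω → ℝ) (hm : ∀ n, Measurable (h n)) (h0 : ∀ n ω, 0 ≤ h n ω)
    (h1 : ∀ n ω, h n ω ≤ 1) :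
    ∃ P : Measure (ℕ → Bool), IsProbabilityMeasure P ∧
      ∀ F : Finset ℕ, P.real (cyl F) = ∫ ω, ∏ n ∈ F, h n ω ∂Pr := by
  classical
  let Q : Measure (ℕ → ℝ) := Measure.infinitePi (fun _ : ℕ => unif)
  let G : Ω × (ℕ → ℝ) → (ℕ → Bool) := fun p n => decide (p.2 n ≤ h n p.1)
  have hG : Measurable G := by
    refine measurable_pi_lambda _ (fun n => ?_)
    refine measurable_to_bool ?_
    have : (fun p : Ω × (ℕ → ℝ) => G p n) ⁻¹' {true} = {p | p.2 n ≤ h n p.1} := by
      ext p
      simp [G]
    rw [this]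
    exact measurableSet_le ((measurable_pi_apply n).comp measurable_snd)
      ((hm n).comp measurable_fst)
  refine ⟨(Pr.prod Q).map G, Measure.isProbabilityMeasure_map hG.aemeasurable, fun F => ?_⟩
  rw [measureReal_def, Measure.map_apply hG (measurableSet_cyl F),
    Measure.prod_apply (hG (measurableSet_cyl F))]
  have h2 : ∀ ω, Q (Prod.mk ω ⁻¹' (G ⁻¹' cyl F)) = ENNReal.ofReal (∏ n ∈ F, h n ω) := by
    intro ω
    have h3 : Prod.mk ω ⁻¹' (G ⁻¹' cyl F) = Set.pi (F : Set ℕ) (fun n => Set.Iic (h n ω)) := by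
      ext u
      simp [G, cyl, Set.mem_pi]
    rw [h3, Measure.infinitePi_pi _ (fun n _ => measurableSet_Iic),
      ENNReal.ofReal_prod_of_nonneg (fun n _ => h0 n ω)]
    exact Finset.prod_congr rfl (fun n _ => unif_Iic _ (h0 n ω) (h1 n ω))
  simp_rw [h2]
  rw [integral_eq_lintegral_of_nonneg_ae]
  · exact Eventually.of_forall (fun ω => Finset.prod_nonneg (fun n _ => h0 n ω))
  · exact (Finset.measurable_prod F (fun n _ => hm n)).aestronglyMeasurable

/-- Splitting of a measure into finitely many atoms, a diffuse part and a small error. -/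
lemma split (ρ : Measure UnitAddCircle) [IsFiniteMeasure ρ] (hρ0 : ρ {0} = 0) (δ : ℝ)
    (hδ : 0 < δ) :
    ∃ (Λ : Finset UnitAddCircle) (ρc : Measure UnitAddCircle), IsFiniteMeasure ρc ∧
      (∀ θ, ρc {θ} = 0) ∧ (∀ θ ∈ Λ, -θ ∈ Λ) ∧ (0 ∉ Λ) ∧
      ∀ n : ℤ, cof ρc n + ∑ θ ∈ Λ, ρ.real {θ} * (fourier n θ).re ≤ cof ρ n + δ := by
  classical
  have hD : Set.Countable {θ : UnitAddCircle | 0 < ρ {θ}} := by
    refine Measure.countable_meas_pos_of_disjoint_iUnion (μ := ρ)
      (As := fun θ : UnitAddCircle => ({θ} : Set UnitAddCircle))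
      (fun θ => measurableSet_singleton θ) ?_
    intro a b hab
    simpa [Function.onFun] using hab
  set D : Set UnitAddCircle := {θ : UnitAddCircle | 0 < ρ {θ}} with hDdef
  -- a finite subset carrying almost all the mass
  obtain ⟨L, hLD, hL⟩ : ∃ L : Finset UnitAddCircle, (L : Set UnitAddCircle) ⊆ D ∧
      ρ (D \ L) < ENNReal.ofReal δ := by
    rcases D.eq_empty_or_nonempty with hE | hne
    · refine ⟨∅, by simp, ?_⟩
      rw [hE]
      simpa using hδ
    · obtain ⟨f, hf⟩ := hD.exists_eq_range hne
      let s : ℕ → Set UnitAddCircle := fun k => D \ ((Finset.range k).image f : Finset _)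
      have hs : Antitone s := by
        intro a b hab
        apply Set.sdiff_subset_sdiff_right
        intro x hx
        simp only [Finset.coe_image, Set.mem_image, Finset.mem_coe, Finset.mem_range] at hx ⊢
        obtain ⟨i, hi, rfl⟩ := hx
        exact ⟨i, by omega, rfl⟩
      have hsm : ∀ k, NullMeasurableSet (s k) ρ := by
        intro k
        exact (hD.measurableSet.diff (Finset.measurableSet _)).nullMeasurableSet
      have hlim := tendsto_measure_iInter_atTop hsm hs ⟨0, measure_ne_top ρ _⟩
      have hempty : ⋂ k, s k = ∅ := by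
        ext x
        simp only [Set.mem_iInter, Set.mem_empty_iff_false, iff_false, not_forall]
        by_cases hx : x ∈ D
        · rw [hf] at hx
          obtain ⟨i, rfl⟩ := hx
          refine ⟨i + 1, fun h => h.2 ?_⟩
          simp only [Finset.coe_image, Set.mem_image, Finset.mem_coe, Finset.mem_range]
          exact ⟨i, by omega, rfl⟩
        · exact ⟨0, fun h => hx h.1⟩
      rw [hempty, measure_empty] at hlim
      have hev := hlim.eventually_lt_const (ENNReal.ofReal_pos.2 hδ)
      obtain ⟨k, hk⟩ := hev.exists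
      refine ⟨(Finset.range k).image f, ?_, hk⟩
      intro x hx
      simp only [Finset.coe_image, Set.mem_image, Finset.mem_coe, Finset.mem_range] at hx
      obtain ⟨i, _, rfl⟩ := hx
      rw [hf]
      exact ⟨i, rfl⟩
  set Λ : Finset UnitAddCircle := L ∪ L.image (fun θ => -θ) with hΛ
  set B : Set UnitAddCircle := D ∪ Λ with hB
  have hBm : MeasurableSet B := (hD.union (Finset.countable_toSet Λ)).measurableSet
  have hΛm : MeasurableSet (Λ : Set UnitAddCircle) := Finset.measurableSet _
  refine ⟨Λ, ρ.restrict Bᶜ, inferInstance, ?_, ?_, ?_, ?_⟩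
  · intro θ
    rw [Measure.restrict_apply (measurableSet_singleton θ)]
    by_cases h : θ ∈ D
    · have : {θ} ∩ Bᶜ = (∅ : Set UnitAddCircle) := by
        ext x
        simp only [Set.mem_inter_iff, Set.mem_singleton_iff, Set.mem_compl_iff,
          Set.mem_empty_iff_false, iff_false, not_and, not_not]
        rintro rfl
        exact Or.inl h
      rw [this, measure_empty]
    · have : ρ {θ} = 0 := by
        by_contra h2
        exact h (pos_iff_ne_zero.2 h2)
      exact measure_mono_null Set.inter_subset_left this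
  · intro θ hθ
    simp only [hΛ, Finset.mem_union, Finset.mem_image] at hθ ⊢
    rcases hθ with h | ⟨x, hx, rfl⟩
    · exact Or.inr ⟨θ, h, rfl⟩
    · left; simpa using hx
  · simp only [hΛ, Finset.mem_union, Finset.mem_image, not_or, not_exists, not_and]
    have h0 : (0 : UnitAddCircle) ∉ L := by
      intro h
      have := hLD h
      simp only [hDdef, Set.mem_ofPred_eq] at this
      exact this.ne' hρ0
    refine ⟨h0, fun x hx h => h0 ?_⟩
    rw [neg_eq_zero] at h
    rwa [h] at hx
  · intro n
    have e1 : ∫ θ, fourier n θ ∂ρ = (∫ θ in B, fourier n θ ∂ρ) +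
        ∫ θ in Bᶜ, fourier n θ ∂ρ :=
      (integral_add_compl hBm (integrable_fourier ρ n)).symm
    have e2 : ∫ θ in B, fourier n θ ∂ρ = (∫ θ in B ∩ Λ, fourier n θ ∂ρ) +
        ∫ θ in B \ Λ, fourier n θ ∂ρ :=
      (integral_inter_add_sdiff hΛm (integrable_fourier ρ n).integrableOn).symm
    have e3 : B ∩ Λ = (Λ : Set UnitAddCircle) :=
      Set.inter_eq_right.2 Set.subset_union_right
    have e4 : B \ Λ = D \ Λ := by
      rw [hB, Set.union_sdiff_right]
    have e5 : ∫ θ in (Λ : Set UnitAddCircle), fourier n θ ∂ρ =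
        ∑ θ ∈ Λ, (ρ.real {θ} : ℂ) * fourier n θ := by
      rw [setIntegral_finset]
      · simp
      · exact (integrable_fourier ρ n).integrableOn
    have e6 : ‖∫ θ in D \ Λ, fourier n θ ∂ρ‖ ≤ δ := by
      refine (norm_setIntegral_le_of_norm_le_const (C := 1) (measure_lt_top _ _) ?_).trans ?_
      · exact fun θ _ => (norm_fourier_apply n θ).le
      · rw [one_mul]
        have : ρ (D \ Λ) ≤ ρ (D \ L) := by
          apply measure_mono
          apply Set.sdiff_subset_sdiff_right
          intro x hx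
          simp only [hΛ, Finset.coe_union, Set.mem_union]
          exact Or.inl hx
        exact ENNReal.toReal_le_of_le_ofReal hδ.le (this.trans hL.le)
    rw [e3, e4, e5] at e2
    rw [e2] at e1
    have e7 : cof ρ n = (∑ θ ∈ Λ, ρ.real {θ} * (fourier n θ).re) +
        (∫ θ in D \ Λ, fourier n θ ∂ρ).re + cof (ρ.restrict Bᶜ) n := by
      unfold cof
      rw [e1, Complex.add_re, Complex.add_re, Complex.re_sum]
      congr 3
      ext θ
      simp
    have e8 := (abs_le.1 ((Complex.abs_re_le_norm _).trans e6)).1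
    linarith

end Pool.Agent.Helper11.NiceRec
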