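import Mathlib
import Pool.Agent.Helper11.NiceRec.Alge
import Pool.Agent.Helper11.NiceRec.Gauss
import Pool.Agent.Helper11.NiceRec.Herg
import Pool.Agent.Helper11.NiceRec.Realize

open MeasureTheory Filter Topology ProbabilityTheory
open scoped ComplexConjugate ENNReal RealInnerProductSpace

namespace Pool.Agent.Helper11.NiceRec

/-- The evaluation character. -/
noncomputable def evHom (s : ℝ) (j : ℕ) (x : ℕ → ℝ) : Multiplicative Gam →* ℂ where
  toFun γ := fourier (j : ℤ) (Multiplicative.toAdd γ).1 *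
    Complex.exp (((s * pair (Multiplicative.toAdd γ).2 x : ℝ) : ℂ) * Complex.I)
  map_one' := by
    simp only [toAdd_one, Prod.fst_zero, Prod.snd_zero, fourier_eval_zero, pair_zero]
    simp
  map_mul' a b := by
    simp only [toAdd_mul, Prod.fst_add, Prod.snd_add, pair_add]
    rw [fourier_add_arg]
    have : Complex.exp (((s * (pair (Multiplicative.toAdd a).2 x +
        pair (Multiplicative.toAdd b).2 x) : ℝ) : ℂ) * Complex.I) =
        Complex.exp (((s * pair (Multiplicative.toAdd a).2 x : ℝ) : ℂ) * Complex.I) *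
        Complex.exp (((s * pair (Multiplicative.toAdd b).2 x : ℝ) : ℂ) * Complex.I) := by
      rw [← Complex.exp_add]
      congr 1
      push_cast
      ring
    rw [this]
    ring

/-- Evaluation of the algebra. -/
noncomputable def ev (s : ℝ) (j : ℕ) (x : ℕ → ℝ) : Alg →ₐ[ℂ] ℂ :=
  AddMonoidAlgebra.lift ℂ ℂ Gam (evHom s j x)

lemma ev_mon (s : ℝ) (j : ℕ) (x : ℕ → ℝ) (u : UnitAddCircle) (k : ℕ →₀ ℤ) (c : ℂ) :
    ev s j x (mon u k c) = c * (fourier (j : ℤ) u *
      Complex.exp (((s * pair k x : ℝ) : ℂ) * Complex.I)) := by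
  unfold ev
  conv_lhs => rw [mon, AddMonoidAlgebra.lift_single]
  simp only [evHom, MonoidHom.coe_mk, OneHom.coe_mk, toAdd_ofAdd, smul_eq_mul]

variable (ρ : Measure UnitAddCircle) [IsFiniteMeasure ρ]

omit [IsFiniteMeasure ρ] in
lemma integrable_ev (s : ℝ) (N j : ℕ) (p : Alg) :
    Integrable (fun x => ev s j (extv N x) p) (gau ρ N) := by
  induction p using alg_induction with
  | zero => simp
  | add x y hx hy =>
    simp only [map_add]
    exact hx.add hy
  | single u k c =>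
    simp only [ev_mon]
    refine Integrable.const_mul (Integrable.const_mul ?_ _) _
    refine Integrable.mono' (integrable_const (1 : ℝ)) ?_ ?_
    · apply Measurable.aestronglyMeasurable
      have := measurable_pair N k
      fun_prop
    · refine Eventually.of_forall (fun x => ?_)
      rw [Complex.norm_exp_ofReal_mul_I]

/-- The approximating states. -/
noncomputable def avgA (ρ : Measure UnitAddCircle) (s : ℝ) (N : ℕ) (p : Alg) : ℂ :=
  (∑ j ∈ Finset.range N, ∫ x, ev s j (extv N x) p ∂(gau ρ N)) / (N : ℂ)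

lemma tendsto_avgA (s : ℝ) (p : Alg) :
    Tendsto (fun N => avgA ρ s N p) atTop (𝓝 (Phi ρ (s ^ 2) p)) := by
  induction p using alg_induction with
  | zero => simp [avgA]
  | add x y hx hy =>
    rw [map_add]
    refine (hx.add hy).congr (fun N => ?_)
    unfold avgA
    rw [← add_div, ← Finset.sum_add_distrib]
    congr 1
    refine Finset.sum_congr rfl (fun j _ => ?_)
    simp only [map_add]
    rw [integral_add (integrable_ev ρ s N j x) (integrable_ev ρ s N j y)]
  | single u k c =>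
    rw [Phi_mon]
    have h1 : ∀ᶠ N : ℕ in atTop, k.support ⊆ Finset.range N := by
      filter_upwards [eventually_gt_atTop (k.support.sup id)] with N hN
      intro a ha
      rw [Finset.mem_range]
      exact lt_of_le_of_lt (Finset.le_sup (f := id) ha) hN
    have h2 := (tendsto_avg_fourier u).const_mul (c * (phi ρ (s ^ 2) k : ℂ))
    have h3 : c * (phi ρ (s ^ 2) k : ℂ) * (if u = 0 then (1 : ℂ) else 0) =
        if u = 0 then c * (phi ρ (s ^ 2) k : ℂ) else 0 := by
      split_ifs <;> simp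
    rw [h3] at h2
    refine h2.congr' ?_
    filter_upwards [h1] with N hN
    unfold avgA
    rw [← mul_div_assoc, Finset.mul_sum]
    congr 1
    refine Finset.sum_congr rfl (fun j _ => ?_)
    simp only [ev_mon]
    rw [integral_const_mul, integral_const_mul, gau_char ρ N s k hN]
    ring

section element

variable (s : ℝ) (Λ : Finset UnitAddCircle) (w : UnitAddCircle → ℝ)

/-- The basic element of the group algebra. -/
noncomputable def hel (s : ℝ) (Λ : Finset UnitAddCircle) (w : UnitAddCircle → ℝ) : Alg :=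
  mon 0 0 (1 / 2) + (mon 0 (Finsupp.single 0 1) (1 / (8 * Complex.I)) +
    mon 0 (Finsupp.single 0 (-1)) (-(1 / (8 * Complex.I)))) +
    ∑ θ ∈ Λ, mon θ 0 ((s * w θ / 4 : ℝ) : ℂ)

lemma tau_hel (n : ℕ) : tau n (hel s Λ w) =
    mon 0 0 (1 / 2) + (mon 0 (Finsupp.single n 1) (1 / (8 * Complex.I)) +
    mon 0 (Finsupp.single n (-1)) (-(1 / (8 * Complex.I)))) +
    ∑ θ ∈ Λ, mon θ 0 (((s * w θ / 4 : ℝ) : ℂ) * fourier (n : ℤ) θ) := by
  unfold hel
  rw [map_add, map_add, map_add, map_sum]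
  simp only [tau_mon, shiftK_single, map_zero, fourier_eval_zero, mul_one, zero_add]

/-- The real valued process. -/
noncomputable def hre (s : ℝ) (Λ : Finset UnitAddCircle) (w : UnitAddCircle → ℝ) (j n : ℕ)
    (x : ℕ → ℝ) : ℝ :=
  1 / 2 + 1 / 4 * Real.sin (s * x n) +
    ∑ θ ∈ Λ, (s * w θ / 4) * (fourier ((j : ℤ) + n) θ).re

lemma sum_real (m : ℤ) (hΛ : ∀ θ ∈ Λ, -θ ∈ Λ) (hw : ∀ θ, w (-θ) = w θ) :
    ((∑ θ ∈ Λ, (s * w θ / 4) * (fourier m θ).re : ℝ) : ℂ) =
      ∑ θ ∈ Λ, ((s * w θ / 4 : ℝ) : ℂ) * fourier m θ := by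
  have h1 : ∑ θ ∈ Λ, ((s * w θ / 4 : ℝ) : ℂ) * fourier m θ =
      ∑ θ ∈ Λ, ((s * w θ / 4 : ℝ) : ℂ) * conj (fourier m θ) := by
    refine Finset.sum_nbij' (fun θ => -θ) (fun θ => -θ) hΛ hΛ (by simp) (by simp) ?_
    intro θ _
    rw [hw]
    congr 1
    rw [← fourier_neg]
    rw [fourier_apply, fourier_apply]
    congr 2
    rw [smul_neg, neg_smul, neg_neg]
  have h2 : (∑ θ ∈ Λ, ((s * w θ / 4 : ℝ) : ℂ) * fourier m θ) =
      (1 / 2) * (∑ θ ∈ Λ, ((s * w θ / 4 : ℝ) : ℂ) * fourier m θ +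
        ∑ θ ∈ Λ, ((s * w θ / 4 : ℝ) : ℂ) * conj (fourier m θ)) := by
    rw [← h1]
    ring
  rw [h2, ← Finset.sum_add_distrib, Finset.mul_sum]
  push_cast
  refine Finset.sum_congr rfl (fun θ _ => ?_)
  have h3 := Complex.add_conj (fourier m θ)
  rw [← mul_add, h3]
  push_cast
  ring

lemma hre_eq (j n : ℕ) (x : ℕ → ℝ) (hΛ : ∀ θ ∈ Λ, -θ ∈ Λ) (hw : ∀ θ, w (-θ) = w θ) :
    (hre s Λ w j n x : ℂ) = ev s j x (tau n (hel s Λ w)) := by
  rw [tau_hel, map_add, map_add, map_add, map_sum]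
  simp only [ev_mon]
  unfold hre
  rw [Complex.ofReal_add, sum_real s Λ w _ hΛ hw]
  congr 1
  · have hp1 : pair (Finsupp.single n 1) x = x n := by
      unfold pair
      rw [Finsupp.sum_single_index] <;> simp
    have hp2 : pair (Finsupp.single n (-1)) x = - x n := by
      unfold pair
      rw [Finsupp.sum_single_index] <;> simp
    rw [hp1, hp2, pair_zero, fourier_eval_zero]
    push_cast
    rw [Complex.sin]
    have hI : Complex.I ≠ 0 := Complex.I_ne_zero
    have hI2 : Complex.I ^ 2 = -1 := Complex.I_sq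
    simp only [mul_zero, zero_mul, Complex.exp_zero, mul_one, one_mul]
    rw [show -((s : ℂ) * (x n : ℂ)) * Complex.I = s * -(x n : ℂ) * Complex.I by ring]
    field_simp
    linear_combination (8 * (Complex.exp (-(↑s * ↑(x n) * Complex.I)) -
      Complex.exp (↑s * ↑(x n) * Complex.I))) * hI2
  · refine Finset.sum_congr rfl (fun θ _ => ?_)
    rw [pair_zero, mul_zero]
    simp only [Complex.ofReal_zero, zero_mul, Complex.exp_zero, mul_one]
    rw [fourier_add, mul_assoc, mul_comm (fourier (n : ℤ) θ)]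

lemma hre_bound (hs : 0 ≤ s) (hw0 : ∀ θ, 0 ≤ w θ) (hsum : s * ∑ θ ∈ Λ, w θ ≤ 1) (j n : ℕ)
    (x : ℕ → ℝ) : 0 ≤ hre s Λ w j n x ∧ hre s Λ w j n x ≤ 1 := by
  have h1 : |∑ θ ∈ Λ, (s * w θ / 4) * (fourier ((j : ℤ) + n) θ).re| ≤ 1 / 4 := by
    calc |∑ θ ∈ Λ, (s * w θ / 4) * (fourier ((j : ℤ) + n) θ).re|
        ≤ ∑ θ ∈ Λ, s * w θ / 4 := by
          refine (Finset.abs_sum_le_sum_abs _ _).trans (Finset.sum_le_sum (fun θ _ => ?_))
          have h2 : 0 ≤ s * w θ / 4 := div_nonneg (mul_nonneg hs (hw0 θ)) (by norm_num)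
          rw [abs_mul, abs_of_nonneg h2]
          refine mul_le_of_le_one_right h2 ?_
          exact (Complex.abs_re_le_norm _).trans (norm_fourier_apply _ θ).le
      _ = (s * ∑ θ ∈ Λ, w θ) / 4 := by rw [Finset.mul_sum, Finset.sum_div]
      _ ≤ 1 / 4 := by gcongr
  have h2 := abs_le.1 h1
  have h3 := Real.neg_one_le_sin (s * x n)
  have h4 := Real.sin_le_one (s * x n)
  unfold hre
  constructor <;> linarith [h2.1, h2.2]

lemma measurable_hre (N j n : ℕ) :
    Measurable (fun x : EuclideanSpace ℝ (Fin N) => hre s Λ w j n (extv N x)) := by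
  unfold hre
  have := measurable_extv N n
  fun_prop

end element

/-- The element attached to a finite set. -/
noncomputable def pF (s : ℝ) (Λ : Finset UnitAddCircle) (w : UnitAddCircle → ℝ)
    (F : Finset ℕ) : Alg := ∏ n ∈ F, tau n (hel s Λ w)

omit [IsFiniteMeasure ρ] in
lemma exists_PNj (s : ℝ) (Λ : Finset UnitAddCircle) (w : UnitAddCircle → ℝ)
    (hs : 0 ≤ s) (hΛ : ∀ θ ∈ Λ, -θ ∈ Λ) (hw : ∀ θ, w (-θ) = w θ) (hw0 : ∀ θ, 0 ≤ w θ)
    (hsum : s * ∑ θ ∈ Λ, w θ ≤ 1) (N j : ℕ) :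
    ∃ P : Measure (ℕ → Bool), IsProbabilityMeasure P ∧
      ∀ F : Finset ℕ, (P.real (cyl F) : ℂ) = ∫ x, ev s j (extv N x) (pF s Λ w F) ∂(gau ρ N) := by
  obtain ⟨P, hP, h⟩ := realize (gau ρ N) (fun n x => hre s Λ w j n (extv N x))
    (fun n => measurable_hre s Λ w N j n)
    (fun n x => (hre_bound s Λ w hs hw0 hsum j n _).1)
    (fun n x => (hre_bound s Λ w hs hw0 hsum j n _).2)
  refine ⟨P, hP, fun F => ?_⟩
  rw [h, ← integral_complex_ofReal]
  refine integral_congr_ae (Eventually.of_forall (fun x => ?_))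
  simp only [pF, map_prod]
  push_cast
  exact Finset.prod_congr rfl (fun n _ => hre_eq s Λ w j n _ hΛ hw)

/-- The continuous indicator of a cylinder. -/
noncomputable def gF (F : Finset ℕ) : C(ℕ → Bool, ℂ) where
  toFun x := ∏ n ∈ F, (if x n = true then (1 : ℂ) else 0)
  continuous_toFun := by
    refine continuous_finsetProd _ (fun n _ => ?_)
    have : Continuous (fun b : Bool => if b = true then (1 : ℂ) else 0) :=
      continuous_of_discreteTopology
    exact this.comp (continuous_apply n)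

lemma integral_gF (P : Measure (ℕ → Bool)) [IsProbabilityMeasure P] (F : Finset ℕ) :
    ∫ x, gF F x ∂P = P.real (cyl F) := by
  have h1 : (fun x => gF F x) = (cyl F).indicator (fun _ => (1 : ℂ)) := by
    ext x
    simp only [gF, ContinuousMap.coe_mk]
    by_cases h : x ∈ cyl F
    · rw [Set.indicator_of_mem h]
      refine Finset.prod_eq_one (fun n hn => ?_)
      rw [if_pos (h n hn)]
    · rw [Set.indicator_of_notMem h]
      have h2 : ∃ n ∈ F, x n ≠ true := by
        by_contra h3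
        push Not at h3
        exact h h3
      obtain ⟨n, hn, hx⟩ := h2
      refine Finset.prod_eq_zero hn ?_
      rw [if_neg hx]
  rw [h1, integral_indicator_const _ (measurableSet_cyl F)]
  simp

/-- Existence of the limiting law. -/
theorem exists_P (s : ℝ) (Λ : Finset UnitAddCircle) (w : UnitAddCircle → ℝ)
    (hs : 0 ≤ s) (hΛ : ∀ θ ∈ Λ, -θ ∈ Λ) (hw : ∀ θ, w (-θ) = w θ) (hw0 : ∀ θ, 0 ≤ w θ)
    (hsum : s * ∑ θ ∈ Λ, w θ ≤ 1) :
    ∃ P : Measure (ℕ → Bool), IsProbabilityMeasure P ∧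
      ∀ F : Finset ℕ, (P.real (cyl F) : ℂ) = Phi ρ (s ^ 2) (pF s Λ w F) := by
  choose P hP h using exists_PNj ρ s Λ w hs hΛ hw hw0 hsum
  let Q : ℕ → Measure (ℕ → Bool) := fun N =>
    ((N + 1 : ℕ) : ℝ≥0∞)⁻¹ • ∑ j ∈ Finset.range (N + 1), P (N + 1) j
  have hQ : ∀ N, IsProbabilityMeasure (Q N) := by
    intro N
    have := hP (N + 1)
    refine ⟨?_⟩
    simp only [Q, Measure.smul_apply, Measure.finsetSum_apply, measure_univ, Finset.sum_const,
      Finset.card_range, smul_eq_mul, nsmul_eq_mul, mul_one]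
    exact ENNReal.inv_mul_cancel (by simp) (ENNReal.natCast_ne_top _)
  have hQF : ∀ N F, ∫ x, gF F x ∂(Q N) = avgA ρ s (N + 1) (pF s Λ w F) := by
    intro N F
    have := hP (N + 1)
    simp only [Q]
    rw [integral_smul_measure, integral_finsetSum_measure]
    · simp_rw [integral_gF, h]
      unfold avgA
      rw [ENNReal.toReal_inv, ENNReal.toReal_natCast, Complex.real_smul]
      push_cast
      rw [mul_comm, ← div_eq_mul_inv]
    · intro j _
      exact (gF F).continuous.integrable_of_hasCompactSupport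
        (HasCompactSupport.of_compactSpace _)
  obtain ⟨P0, hP0, hlim⟩ := exists_weak_limit' Q hQ
  refine ⟨P0, hP0, fun F => ?_⟩
  rw [← integral_gF]
  apply hlim
  simp_rw [hQF]
  exact (tendsto_avgA ρ s (pF s Λ w F)).comp (tendsto_add_atTop_nat 1)

end Pool.Agent.Helper11.NiceRec
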