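import Mathlib
import Pool.Agent.Helper11.NiceRec.Herg

open MeasureTheory Filter Topology
open scoped ComplexConjugate ENNReal

namespace Pool.Agent.Helper11.NiceRec

variable {X : Type*} [MeasurableSpace X]

/-- Indicator of A along the orbit. -/
noncomputable def ind (T : X → X) (A : Set X) (j : ℕ) (x : X) : ℝ :=
  A.indicator (fun _ => (1 : ℝ)) (T^[j] x)

lemma ind_eq (T : X → X) (A : Set X) (j : ℕ) :
    ind T A j = ((T^[j]) ⁻¹' A).indicator (fun _ => (1 : ℝ)) := by
  rfl

lemma ind_mul (T : X → X) (A : Set X) (j l : ℕ) (x : X) :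
    ind T A j x * ind T A l x =
      (((T^[j]) ⁻¹' A) ∩ ((T^[l]) ⁻¹' A)).indicator (fun _ => (1 : ℝ)) x := by
  simp only [ind, Set.indicator, Set.mem_inter_iff, Set.mem_preimage]
  split_ifs <;> simp_all

lemma ind_nonneg (T : X → X) (A : Set X) (j : ℕ) (x : X) : 0 ≤ ind T A j x := by
  unfold ind
  exact Set.indicator_nonneg (fun _ _ => zero_le_one) _

lemma ind_le_one (T : X → X) (A : Set X) (j : ℕ) (x : X) : ind T A j x ≤ 1 := by
  unfold ind
  exact Set.indicator_le_self' (fun _ _ => zero_le_one) _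

/-- Return correlations. -/
noncomputable def corr (μ : Measure X) (T : X → X) (A : Set X) (n : ℕ) : ℝ :=
  μ.real (A ∩ (T^[n]) ⁻¹' A)

variable {μ : Measure X} [IsProbabilityMeasure μ] {T : X → X} {A : Set X}

lemma measurable_ind (hT : MeasurePreserving T μ μ) (hA : MeasurableSet A) (j : ℕ) :
    Measurable (ind T A j) := by
  rw [ind_eq]
  exact measurable_const.indicator ((hT.iterate j).measurable hA)

lemma measureReal_two (hT : MeasurePreserving T μ μ) (hA : MeasurableSet A) (j l : ℕ) :
    μ.real (((T^[j]) ⁻¹' A) ∩ ((T^[l]) ⁻¹' A)) = corr μ T A ((j : ℤ) - l).natAbs := by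
  have key : ∀ j l : ℕ, j ≤ l →
      μ.real (((T^[j]) ⁻¹' A) ∩ ((T^[l]) ⁻¹' A)) = corr μ T A (l - j) := by
    intro j l hjl
    have h1 : ((T^[j]) ⁻¹' A) ∩ ((T^[l]) ⁻¹' A) =
        (T^[j]) ⁻¹' (A ∩ (T^[l - j]) ⁻¹' A) := by
      rw [Set.preimage_inter, ← Set.preimage_comp, ← Function.iterate_add]
      congr 3
      omega
    rw [h1, corr, measureReal_def, (hT.iterate j).measure_preimage
      (hA.inter ((hT.iterate (l - j)).measurable hA)).nullMeasurableSet, measureReal_def]
  rcases le_total j l with h | h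
  · rw [key j l h]
    congr 1
    omega
  · rw [Set.inter_comm, key l j h]
    congr 1
    omega

lemma integral_ind_mul (hT : MeasurePreserving T μ μ) (hA : MeasurableSet A) (j l : ℕ) :
    ∫ x, ind T A j x * ind T A l x ∂μ = corr μ T A ((j : ℤ) - l).natAbs := by
  simp_rw [ind_mul]
  rw [integral_indicator_const _
    (((hT.iterate j).measurable hA).inter ((hT.iterate l).measurable hA)), measureReal_two hT hA]
  simp

lemma integrable_ind_mul (hT : MeasurePreserving T μ μ) (hA : MeasurableSet A) (j l : ℕ) :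
    Integrable (fun x => ind T A j x * ind T A l x) μ := by
  refine Integrable.mono' (integrable_const (1 : ℝ))
    ((measurable_ind hT hA j).mul (measurable_ind hT hA l)).aestronglyMeasurable
    (Eventually.of_forall (fun x => ?_))
  rw [Real.norm_eq_abs, abs_of_nonneg (mul_nonneg (ind_nonneg _ _ _ _) (ind_nonneg _ _ _ _))]
  exact mul_le_one₀ (ind_le_one _ _ _ _) (ind_nonneg _ _ _ _) (ind_le_one _ _ _ _)

/-- The Fejer type densities. -/
noncomputable def dens (μ : Measure X) (T : X → X) (A : Set X) (N : ℕ) (θ : UnitAddCircle) : ℝ :=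
  (∫ x, ‖∑ j ∈ Finset.range N, (ind T A j x : ℂ) * fourier (-(j : ℤ)) θ‖ ^ 2 ∂μ) / N

lemma dens_nonneg (N : ℕ) (θ : UnitAddCircle) : 0 ≤ dens μ T A N θ := by
  unfold dens
  refine div_nonneg (integral_nonneg (fun x => by positivity)) (by positivity)

lemma norm_sq_expand (N : ℕ) (θ : UnitAddCircle) (x : X) :
    ((‖∑ j ∈ Finset.range N, (ind T A j x : ℂ) * fourier (-(j : ℤ)) θ‖ ^ 2 : ℝ) : ℂ) =
    ∑ j ∈ Finset.range N, ∑ l ∈ Finset.range N,
      ((ind T A j x * ind T A l x : ℝ) : ℂ) * fourier ((l : ℤ) - j) θ := by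
  rw [← Complex.normSq_eq_norm_sq, ← Complex.mul_conj, map_sum, Finset.sum_mul_sum]
  refine Finset.sum_congr rfl (fun j _ => Finset.sum_congr rfl (fun l _ => ?_))
  rw [map_mul, Complex.conj_ofReal, ← fourier_neg, neg_neg,
    show ((l : ℤ) - j) = -(j : ℤ) + l by ring, fourier_add]
  push_cast
  ring

lemma dens_eq (hT : MeasurePreserving T μ μ) (hA : MeasurableSet A) (N : ℕ)
    (θ : UnitAddCircle) :
    (dens μ T A N θ : ℂ) = (∑ j ∈ Finset.range N, ∑ l ∈ Finset.range N,
      ((corr μ T A ((j : ℤ) - l).natAbs : ℝ) : ℂ) * fourier ((l : ℤ) - j) θ) / (N : ℂ) := by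
  unfold dens
  push_cast
  congr 1
  rw [← integral_complex_ofReal]
  simp_rw [norm_sq_expand]
  have hint : ∀ j l : ℕ, Integrable (fun x => ((ind T A j x * ind T A l x : ℝ) : ℂ) *
      fourier ((l : ℤ) - j) θ) μ := by
    intro j l
    exact ((integrable_ind_mul hT hA j l).ofReal).mul_const _
  rw [integral_finsetSum]
  · refine Finset.sum_congr rfl (fun j _ => ?_)
    rw [integral_finsetSum]
    · refine Finset.sum_congr rfl (fun l _ => ?_)
      rw [integral_mul_const, integral_complex_ofReal, integral_ind_mul hT hA]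
    · intro l _
      exact hint j l
  · intro j _
    exact integrable_finsetSum _ (fun l _ => hint j l)

/-- Existence of the spectral measure of the indicator of A. -/
lemma exists_sigma (hT : MeasurePreserving T μ μ) (hA : MeasurableSet A) (hpos : 0 < μ.real A) :
    ∃ σ : Measure UnitAddCircle, IsFiniteMeasure σ ∧
      ∀ n : ℤ, ∫ θ, fourier n θ ∂σ = corr μ T A n.natAbs := by
  have h0 : corr μ T A (0 : ℤ).natAbs = μ.real A := by
    simp [corr]
  obtain ⟨σ, hσ, h⟩ := herglotz (fun n : ℤ => corr μ T A n.natAbs) (by rw [h0]; exact hpos)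
    (dens μ T A) dens_nonneg (dens_eq hT hA)
  refine ⟨σ, hσ, fun n => ?_⟩
  rcases Int.natAbs_eq n with h1 | h1
  · rw [h1, h]
  · rw [h1, ← conj_integral_fourier, h]
    simp

lemma sq_le_sigma (hT : MeasurePreserving T μ μ) (hA : MeasurableSet A)
    (σ : Measure UnitAddCircle) [IsFiniteMeasure σ]
    (hσ : ∀ n : ℤ, ∫ θ, fourier n θ ∂σ = corr μ T A n.natAbs) :
    μ.real A ^ 2 ≤ σ.real {0} := by
  -- limit of the second moments of the averages
  have h1 : Tendsto (fun N : ℕ => ∫ θ,
      ‖(∑ n ∈ Finset.range N, fourier (n : ℤ) θ) / (N : ℂ)‖ ^ 2 ∂σ) atTop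
      (𝓝 (∫ θ, (if θ = 0 then (1 : ℝ) else 0) ∂σ)) := by
    refine tendsto_integral_of_dominated_convergence (fun _ => (1 : ℝ)) ?_ (integrable_const _)
      ?_ ?_
    · intro N
      apply Continuous.aestronglyMeasurable
      fun_prop
    · intro N
      refine Eventually.of_forall (fun θ => ?_)
      rw [norm_pow, norm_norm]
      exact pow_le_one₀ (norm_nonneg _) (avg_norm_le θ N)
    · refine Eventually.of_forall (fun θ => ?_)
      have h := ((tendsto_avg_fourier θ).norm).pow 2
      have h2 : ‖(if θ = 0 then (1 : ℂ) else 0)‖ ^ 2 = (if θ = 0 then (1 : ℝ) else 0) := by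
        split_ifs <;> simp
      rw [h2] at h
      exact h
  have h2 : ∫ θ, (if θ = 0 then (1 : ℝ) else 0) ∂σ = σ.real {0} := by
    have : (fun θ : UnitAddCircle => (if θ = 0 then (1 : ℝ) else 0)) =
        Set.indicator {0} (fun _ => (1 : ℝ)) := by
      ext θ
      simp [Set.indicator]
    rw [this, integral_indicator_const _ (measurableSet_singleton _)]
    simp
  rw [h2] at h1
  -- compute the moments
  have h3 : ∀ N : ℕ, ∫ θ, ‖(∑ n ∈ Finset.range N, fourier (n : ℤ) θ) / (N : ℂ)‖ ^ 2 ∂σ =
      ∫ x, ((∑ j ∈ Finset.range N, ind T A j x) / N) ^ 2 ∂μ := by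
    intro N
    have e1 : ∀ θ : UnitAddCircle,
        ((‖(∑ n ∈ Finset.range N, fourier (n : ℤ) θ) / (N : ℂ)‖ ^ 2 : ℝ) : ℂ) =
        (∑ j ∈ Finset.range N, ∑ l ∈ Finset.range N, fourier ((j : ℤ) - l) θ) / (N : ℂ) ^ 2 := by
      intro θ
      rw [norm_div, div_pow, Complex.norm_natCast]
      push_cast
      congr 1
      rw [← Complex.ofReal_pow, ← Complex.normSq_eq_norm_sq, ← Complex.mul_conj, map_sum,
        Finset.sum_mul_sum]
      refine Finset.sum_congr rfl (fun j _ => Finset.sum_congr rfl (fun l _ => ?_))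
      rw [← fourier_neg, sub_eq_add_neg, fourier_add]
    have e2 : ((∫ θ, ‖(∑ n ∈ Finset.range N, fourier (n : ℤ) θ) / (N : ℂ)‖ ^ 2 ∂σ : ℝ) : ℂ) =
        (∑ j ∈ Finset.range N, ∑ l ∈ Finset.range N,
          ((corr μ T A ((j : ℤ) - l).natAbs : ℝ) : ℂ)) / (N : ℂ) ^ 2 := by
      rw [← integral_complex_ofReal]
      simp_rw [e1]
      rw [integral_div]
      congr 1
      rw [integral_finsetSum]
      · refine Finset.sum_congr rfl (fun j _ => ?_)
        rw [integral_finsetSum]
        · refine Finset.sum_congr rfl (fun l _ => ?_)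
          rw [hσ]
        · intro l _
          exact integrable_fourier _ _
      · intro j _
        exact integrable_finsetSum _ (fun l _ => integrable_fourier _ _)
    have e3 : ((∫ x, ((∑ j ∈ Finset.range N, ind T A j x) / N) ^ 2 ∂μ : ℝ) : ℂ) =
        (∑ j ∈ Finset.range N, ∑ l ∈ Finset.range N,
          ((corr μ T A ((j : ℤ) - l).natAbs : ℝ) : ℂ)) / (N : ℂ) ^ 2 := by
      have e4 : ∀ x, ((∑ j ∈ Finset.range N, ind T A j x) / (N : ℝ)) ^ 2 =
          (∑ j ∈ Finset.range N, ∑ l ∈ Finset.range N, ind T A j x * ind T A l x) /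
            (N : ℝ) ^ 2 := by
        intro x
        rw [div_pow, sq (∑ j ∈ Finset.range N, ind T A j x), Finset.sum_mul_sum]
      simp_rw [e4]
      rw [integral_div, integral_finsetSum]
      · have e5 : ∀ j ∈ Finset.range N, ∫ x, ∑ l ∈ Finset.range N, ind T A j x * ind T A l x ∂μ =
            ∑ l ∈ Finset.range N, corr μ T A ((j : ℤ) - l).natAbs := by
          intro j _
          rw [integral_finsetSum]
          · exact Finset.sum_congr rfl (fun l _ => integral_ind_mul hT hA j l)
          · intro l _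
            exact integrable_ind_mul hT hA j l
        rw [Finset.sum_congr rfl e5]
        push_cast
        rfl
      · intro j _
        exact integrable_finsetSum _ (fun l _ => integrable_ind_mul hT hA j l)
    have e6 := e2.trans e3.symm
    exact_mod_cast e6
  -- lower bound by Cauchy-Schwarz
  have h4 : ∀ N : ℕ, N ≠ 0 →
      μ.real A ^ 2 ≤ ∫ x, ((∑ j ∈ Finset.range N, ind T A j x) / N) ^ 2 ∂μ := by
    intro N hN
    have hNr : (N : ℝ) ≠ 0 := by exact_mod_cast hN
    set g : X → ℝ := fun x => (∑ j ∈ Finset.range N, ind T A j x) / N with hg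
    have hgm : Measurable g :=
      (Finset.measurable_sum _ (fun j _ => measurable_ind hT hA j)).div_const _
    have hg0 : ∀ x, 0 ≤ g x := fun x =>
      div_nonneg (Finset.sum_nonneg (fun j _ => ind_nonneg _ _ _ _)) (by positivity)
    have hg1 : ∀ x, g x ≤ 1 := by
      intro x
      rw [hg]
      simp only
      rw [div_le_one (by positivity)]
      calc ∑ j ∈ Finset.range N, ind T A j x ≤ ∑ j ∈ Finset.range N, (1 : ℝ) :=
            Finset.sum_le_sum (fun j _ => ind_le_one _ _ _ _)
        _ = N := by simp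
    have hgi : Integrable g μ := by
      refine Integrable.mono' (integrable_const (1 : ℝ)) hgm.aestronglyMeasurable
        (Eventually.of_forall (fun x => ?_))
      rw [Real.norm_eq_abs, abs_of_nonneg (hg0 x)]
      exact hg1 x
    have hg2i : Integrable (fun x => g x ^ 2) μ := by
      refine Integrable.mono' (integrable_const (1 : ℝ)) (hgm.pow_const 2).aestronglyMeasurable
        (Eventually.of_forall (fun x => ?_))
      rw [Real.norm_eq_abs, abs_of_nonneg (by positivity)]
      exact pow_le_one₀ (hg0 x) (hg1 x)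
    have hgint : ∫ x, g x ∂μ = μ.real A := by
      rw [hg, integral_div, integral_finsetSum]
      · have : ∀ j ∈ Finset.range N, ∫ x, ind T A j x ∂μ = μ.real A := by
          intro j _
          rw [ind_eq, integral_indicator_const _ ((hT.iterate j).measurable hA), measureReal_def,
            (hT.iterate j).measure_preimage hA.nullMeasurableSet]
          simp [measureReal_def]
        rw [Finset.sum_congr rfl this]
        simp
        field_simp
      · intro j _
        refine Integrable.mono' (integrable_const (1 : ℝ))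
          (measurable_ind hT hA j).aestronglyMeasurable (Eventually.of_forall (fun x => ?_))
        rw [Real.norm_eq_abs, abs_of_nonneg (ind_nonneg _ _ _ _)]
        exact ind_le_one _ _ _ _
    have h5 : 0 ≤ ∫ x, (g x - μ.real A) ^ 2 ∂μ := integral_nonneg (fun x => by positivity)
    have h6 : ∫ x, (g x - μ.real A) ^ 2 ∂μ = ∫ x, g x ^ 2 ∂μ - μ.real A ^ 2 := by
      have : ∀ x, (g x - μ.real A) ^ 2 = g x ^ 2 - 2 * μ.real A * g x + μ.real A ^ 2 := by
        intro x; ring
      simp_rw [this]
      have i1 : Integrable (fun x => 2 * μ.real A * g x) μ := hgi.const_mul _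
      have i2 : Integrable (fun x => g x ^ 2 - 2 * μ.real A * g x) μ := hg2i.sub i1
      rw [integral_add i2 (integrable_const _), integral_sub hg2i i1, integral_const_mul, hgint]
      simp
      ring
    linarith
  refine ge_of_tendsto h1 ?_
  filter_upwards [eventually_ne_atTop 0] with N hN
  rw [h3]
  exact h4 N hN

/-- From a failure of nice recurrence to a measure on the circle. -/
theorem exists_rho (hT : MeasurePreserving T μ μ) (hA : MeasurableSet A) (hpos : 0 < μ.real A)
    (R : Set ℕ) (ε : ℝ) (hR : ∀ n ∈ R, μ.real (A ∩ (T^[n]) ⁻¹' A) ≤ μ.real A ^ 2 - ε) :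
    ∃ ρ : Measure UnitAddCircle, IsFiniteMeasure ρ ∧ ρ {0} = 0 ∧
      ∀ n ∈ R, cof ρ (n : ℤ) ≤ -ε := by
  obtain ⟨σ, hσf, hσ⟩ := exists_sigma hT hA hpos
  have hsq := sq_le_sigma hT hA σ hσ
  refine ⟨σ.restrict {0}ᶜ, inferInstance, ?_, fun n hn => ?_⟩
  · rw [Measure.restrict_apply (measurableSet_singleton _)]
    simp
  · have h1 : ∫ θ, fourier (n : ℤ) θ ∂σ = (∫ θ in {0}, fourier (n : ℤ) θ ∂σ) +
        ∫ θ in {0}ᶜ, fourier (n : ℤ) θ ∂σ :=
      (integral_add_compl (measurableSet_singleton _) (integrable_fourier σ n)).symm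
    have h2 : ∫ θ in {0}, fourier (n : ℤ) θ ∂σ = (σ.real {0} : ℂ) := by
      rw [integral_singleton]
      rw [fourier_eval_zero]
      simp
    unfold cof
    have h3 : ∫ θ in {0}ᶜ, fourier (n : ℤ) θ ∂σ =
        ((corr μ T A n - σ.real {0} : ℝ) : ℂ) := by
      rw [hσ, h2] at h1
      push_cast
      rw [Int.natAbs_natCast] at h1
      rw [h1]
      ring
    rw [h3, Complex.ofReal_re]
    have := hR n hn
    unfold corr
    linarith

end Pool.Agent.Helper11.NiceRec
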