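import Mathlib
import Pool.Agent.Helper11.NiceRec.Approx
import Pool.Agent.Helper11.NiceRec.Spec

open MeasureTheory Filter Topology ProbabilityTheory
open scoped ComplexConjugate ENNReal RealInnerProductSpace

namespace Pool.Agent.Helper11.NiceRec

lemma pF_image (s : ℝ) (Λ : Finset UnitAddCircle) (w : UnitAddCircle → ℝ) (j : ℕ)
    (F : Finset ℕ) : pF s Λ w (F.image (fun n => n + j)) = tau j (pF s Λ w F) := by
  unfold pF
  rw [Finset.prod_image (by intro a _ b _ h; simpa using h), map_prod]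
  refine Finset.prod_congr rfl (fun n _ => ?_)
  rw [tau_tau]

lemma pF_union (s : ℝ) (Λ : Finset UnitAddCircle) (w : UnitAddCircle → ℝ) (j : ℕ)
    (F G : Finset ℕ) (hj : F.sup id < j) :
    pF s Λ w (F ∪ G.image (fun n => n + j)) = pF s Λ w F * tau j (pF s Λ w G) := by
  rw [← pF_image]
  unfold pF
  rw [Finset.prod_union]
  rw [Finset.disjoint_left]
  intro a ha hb
  simp only [Finset.mem_image] at hb
  obtain ⟨b, _, rfl⟩ := hb
  have := Finset.le_sup (f := id) ha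
  simp only [id] at this
  omega

variable (ρ : Measure UnitAddCircle) [IsFiniteMeasure ρ]

theorem ergodic_of_state (hρ : ∀ θ, ρ {θ} = 0) (s : ℝ) (Λ : Finset UnitAddCircle)
    (w : UnitAddCircle → ℝ) (P : Measure (ℕ → Bool)) [IsProbabilityMeasure P]
    (hP : ∀ F : Finset ℕ, (P.real (cyl F) : ℂ) = Phi ρ (s ^ 2) (pF s Λ w F)) :
    Ergodic shift P := by
  refine ergodic_shift P ?_ ?_
  · intro F
    have h1 : P.real (cyl (F.image (fun n => n + 1))) = P.real (cyl F) := by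
      have h2 : (P.real (cyl (F.image (fun n => n + 1))) : ℂ) = (P.real (cyl F) : ℂ) := by
        rw [hP, hP, pF_image, Phi_tau_one]
      exact_mod_cast h2
    rw [measureReal_def, measureReal_def] at h1
    exact (ENNReal.toReal_eq_toReal_iff' (measure_ne_top _ _) (measure_ne_top _ _)).1 h1
  · intro F G
    have h1 : ∀ j, (P.real (cyl F ∩ (shift^[j]) ⁻¹' cyl G) : ℂ) =
        Phi ρ (s ^ 2) (pF s Λ w (F ∪ G.image (fun n => n + j))) := by
      intro j
      rw [preimage_cyl, cyl_inter, hP]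
    have h2 := tendsto_Phi ρ hρ (s ^ 2) (by positivity) (pF s Λ w F) (pF s Λ w G)
    have h3 : Tendsto (fun j : ℕ => (P.real (cyl F ∩ (shift^[j]) ⁻¹' cyl G) : ℂ) -
        Phi ρ (s ^ 2) (pF s Λ w F * tau j (pF s Λ w G))) atTop (𝓝 0) := by
      refine Tendsto.congr' ?_ tendsto_const_nhds
      filter_upwards [eventually_gt_atTop (F.sup id)] with j hj
      rw [h1, pF_union s Λ w j F G hj, sub_self]
    have h4 := h3.cesaro_smul
    have h5 : Tendsto (fun N : ℕ => (∑ j ∈ Finset.range N,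
        (P.real (cyl F ∩ (shift^[j]) ⁻¹' cyl G) : ℂ)) / (N : ℂ)) atTop
        (𝓝 ((P.real (cyl F) : ℂ) * (P.real (cyl G) : ℂ))) := by
      rw [hP, hP]
      have h6 := h4.add h2
      rw [zero_add] at h6
      refine h6.congr (fun N => ?_)
      rw [Finset.sum_sub_distrib, Complex.real_smul]
      push_cast
      rw [mul_sub, div_eq_inv_mul, div_eq_inv_mul]
      ring
    have h7 := (Complex.continuous_re.tendsto _).comp h5
    rw [← Complex.ofReal_mul, Complex.ofReal_re] at h7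
    refine h7.congr (fun N => ?_)
    simp only [Function.comp_apply]
    rw [← Complex.ofReal_sum, ← Complex.ofReal_natCast, ← Complex.ofReal_div, Complex.ofReal_re]

omit [IsFiniteMeasure ρ] in
lemma phi_zero (t : ℝ) : phi ρ t 0 = 1 := by
  unfold phi energy trig
  simp

omit [IsFiniteMeasure ρ] in
lemma phi_neg (t : ℝ) (k : ℕ →₀ ℤ) : phi ρ t (-k) = phi ρ t k := by
  unfold phi
  rw [energy_neg]

lemma single_neg_one (n : ℕ) : (Finsupp.single n (-1) : ℕ →₀ ℤ) = - Finsupp.single n 1 := by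
  simp

omit [IsFiniteMeasure ρ] in
lemma phi_single_neg (t : ℝ) (n : ℕ) :
    phi ρ t (Finsupp.single n (-1)) = phi ρ t (Finsupp.single n 1) := by
  rw [single_neg_one, phi_neg]

omit [IsFiniteMeasure ρ] in
lemma energy_single (n : ℕ) : energy ρ (Finsupp.single n 1) = cof ρ 0 := by
  unfold energy cof
  simp_rw [trig_single, norm_mul, norm_fourier_apply]
  simp

omit [IsFiniteMeasure ρ] in
lemma cof_zero : cof ρ 0 = ρ.real Set.univ := by
  unfold cof
  simp

lemma cross_single (n : ℕ) :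
    cross ρ (Finsupp.single 0 1) (Finsupp.single n 1) = cof ρ n := by
  have h := cross_shift ρ n (Finsupp.single 0 1) (Finsupp.single 0 1)
  rw [shiftK_single, zero_add] at h
  rw [h, Finsupp.support_single 0 one_ne_zero]
  simp

omit [IsFiniteMeasure ρ] in
lemma cross_neg_right (k l : ℕ →₀ ℤ) : cross ρ k (-l) = - cross ρ k l := by
  unfold cross
  rw [← integral_neg]
  refine integral_congr_ae (Eventually.of_forall (fun θ => ?_))
  simp only [trig_neg, map_neg, mul_neg, Complex.neg_re]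

lemma phi_plus (t : ℝ) (n : ℕ) :
    phi ρ t (Finsupp.single 0 1 + Finsupp.single n 1) =
      Real.exp (-(t * (cof ρ 0 + cof ρ n))) := by
  unfold phi
  rw [energy_add, energy_single, energy_single, cross_single]
  congr 1
  ring

lemma phi_minus (t : ℝ) (n : ℕ) :
    phi ρ t (Finsupp.single 0 1 + Finsupp.single n (-1)) =
      Real.exp (-(t * (cof ρ 0 - cof ρ n))) := by
  unfold phi
  rw [single_neg_one, energy_add, energy_neg, energy_single, energy_single, cross_neg_right,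
    cross_single]
  congr 1
  ring

lemma abs_cof_le (n : ℤ) : |cof ρ n| ≤ cof ρ 0 := by
  rw [cof_zero]
  exact (abs_cof_le_norm ρ n).trans (norm_int_le ρ n)

lemma exp_diff_le (t : ℝ) (ht : 0 ≤ t) (n : ℕ) :
    Real.exp (-(t * (cof ρ 0 - cof ρ n))) - Real.exp (-(t * (cof ρ 0 + cof ρ n))) ≤
      2 * t * cof ρ n + 4 * t ^ 2 * cof ρ 0 ^ 2 := by
  have habs := abs_le.1 (abs_cof_le ρ (n : ℤ))
  set c0 := cof ρ 0 with hc0
  set c := cof ρ (n : ℤ) with hc
  have hc00 : 0 ≤ c0 := by linarith [habs.1, habs.2]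
  have ha : 0 ≤ t * (c0 - c) := mul_nonneg ht (by linarith [habs.2])
  have ha2 : t * (c0 - c) ≤ 2 * t * c0 := by nlinarith [habs.1]
  set a := t * (c0 - c) with hadef
  have hb : t * (c0 + c) = a + 2 * t * c := by rw [hadef]; ring
  rw [hb]
  have h1 : Real.exp (-(a + 2 * t * c)) = Real.exp (-a) * Real.exp (-(2 * t * c)) := by
    rw [← Real.exp_add]; congr 1; ring
  have h2 : 1 - 2 * t * c ≤ Real.exp (-(2 * t * c)) := by
    have := Real.add_one_le_exp (-(2 * t * c))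
    linarith
  have h3 : 0 < Real.exp (-a) := Real.exp_pos _
  have h4 : Real.exp (-a) ≤ 1 := Real.exp_le_one_iff.2 (by linarith)
  have h5 : 1 - a ≤ Real.exp (-a) := by
    have := Real.add_one_le_exp (-a)
    linarith
  have h6 : Real.exp (-a) - Real.exp (-(a + 2 * t * c)) ≤ (2 * t * c) * Real.exp (-a) := by
    rw [h1]
    nlinarith
  refine h6.trans ?_
  rcases le_total 0 c with hcp | hcn
  · have h7 : 0 ≤ 2 * t * c := by positivity
    have h8 : 0 ≤ 4 * t ^ 2 * c0 ^ 2 := by positivity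
    nlinarith
  · have h7 : 2 * t * c ≤ 0 := by nlinarith
    have h8 : (2 * t * c) * Real.exp (-a) ≤ (2 * t * c) * (1 - a) :=
      mul_le_mul_of_nonpos_left h5 h7
    have h9 : -(2 * t * c) ≤ 2 * t * c0 := by nlinarith [habs.1]
    have h10 : -(2 * t * c) * a ≤ (2 * t * c0) * (2 * t * c0) :=
      mul_le_mul h9 ha2 ha (by positivity)
    nlinarith

section calc2

variable (s : ℝ) (Λ : Finset UnitAddCircle) (w : UnitAddCircle → ℝ)

omit [IsFiniteMeasure ρ] in
lemma Phi_hel (t : ℝ) (h0 : (0 : UnitAddCircle) ∉ Λ) : Phi ρ t (hel s Λ w) = 1 / 2 := by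
  unfold hel
  rw [map_add, map_add, map_add, map_sum]
  simp only [Phi_mon, if_true, phi_single_neg, phi_zero]
  rw [Finset.sum_eq_zero]
  · push_cast
    ring
  · intro θ hθ
    rw [if_neg]
    rintro rfl
    exact h0 hθ

omit [IsFiniteMeasure ρ] in
lemma Phi_hel_mul (t : ℝ) (h0 : (0 : UnitAddCircle) ∉ Λ) (hΛ : ∀ θ ∈ Λ, -θ ∈ Λ)
    (hw : ∀ θ, w (-θ) = w θ) (n : ℕ) :
    Phi ρ t (hel s Λ w * tau n (hel s Λ w)) =
      1 / 4 + (1 / 32) * ((phi ρ t (Finsupp.single 0 1 + Finsupp.single n (-1)) : ℂ) -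
        phi ρ t (Finsupp.single 0 1 + Finsupp.single n 1)) +
      ∑ θ ∈ Λ, (((s * w θ / 4) ^ 2 : ℝ) : ℂ) * fourier (n : ℤ) θ := by
  have hne : ∀ θ ∈ Λ, θ ≠ 0 := by
    rintro θ hθ rfl
    exact h0 hθ
  rw [tau_hel]
  unfold hel
  set κ : ℂ := 1 / (8 * Complex.I) with hκ
  have hκ2 : κ * κ = -(1 / 64) := by
    rw [hκ]
    have hI : Complex.I ≠ 0 := Complex.I_ne_zero
    have hI2 : Complex.I ^ 2 = -1 := Complex.I_sq
    field_simp
    linear_combination 64 * hI2
  simp only [add_mul, mul_add, Finset.sum_mul, Finset.mul_sum, mon_mul, map_add, map_sum,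
    Phi_mon, add_zero, zero_add, if_true]
  -- the mixed sums vanish
  have z1 : ∀ (g : UnitAddCircle → ℂ), (∑ θ ∈ Λ, if θ = 0 then g θ else 0) = 0 := by
    intro g
    refine Finset.sum_eq_zero (fun θ hθ => ?_)
    rw [if_neg (hne θ hθ)]
  simp only [z1]
  -- the double sum
  have z2 : (∑ x ∈ Λ, ∑ y ∈ Λ, if y + x = 0 then
      ((s * w y / 4 : ℝ) : ℂ) * (((s * w x / 4 : ℝ) : ℂ) * fourier (n : ℤ) x) *
        (phi ρ t 0 : ℂ) else 0) =
      ∑ θ ∈ Λ, (((s * w θ / 4) ^ 2 : ℝ) : ℂ) * fourier (n : ℤ) θ := by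
    refine Finset.sum_congr rfl (fun x hx => ?_)
    rw [Finset.sum_eq_single (-x)]
    · rw [if_pos (by simp), hw, phi_zero]
      push_cast
      ring
    · intro y _ hy
      rw [if_neg]
      intro h
      exact hy (eq_neg_of_add_eq_zero_left h)
    · intro h
      exact absurd (hΛ x hx) h
  have p1 : phi ρ t (Finsupp.single 0 (-1) + Finsupp.single n 1) =
      phi ρ t (Finsupp.single 0 1 + Finsupp.single n (-1)) := by
    rw [single_neg_one, single_neg_one, ← phi_neg]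
    congr 1
    abel
  have p2 : phi ρ t (Finsupp.single 0 (-1) + Finsupp.single n (-1)) =
      phi ρ t (Finsupp.single 0 1 + Finsupp.single n 1) := by
    rw [single_neg_one, single_neg_one, ← phi_neg]
    congr 1
    abel
  have z3 : ∀ x ∈ Λ,
        ((if x = 0 then 1 / 2 * (((s * w x / 4 : ℝ) : ℂ) * fourier (n : ℤ) x) *
            (phi ρ t 0 : ℂ) else 0) +
            ((if x = 0 then κ * (((s * w x / 4 : ℝ) : ℂ) * fourier (n : ℤ) x) *
              (phi ρ t (Finsupp.single 0 1) : ℂ) else 0) +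
              if x = 0 then -κ * (((s * w x / 4 : ℝ) : ℂ) * fourier (n : ℤ) x) *
                (phi ρ t (Finsupp.single 0 (-1)) : ℂ) else 0) +
          ∑ y ∈ Λ, if y + x = 0 then ((s * w y / 4 : ℝ) : ℂ) *
            (((s * w x / 4 : ℝ) : ℂ) * fourier (n : ℤ) x) * (phi ρ t 0 : ℂ) else 0) =
        ∑ y ∈ Λ, if y + x = 0 then ((s * w y / 4 : ℝ) : ℂ) *
            (((s * w x / 4 : ℝ) : ℂ) * fourier (n : ℤ) x) * (phi ρ t 0 : ℂ) else 0 := by
    intro x hx
    rw [if_neg (hne x hx), if_neg (hne x hx), if_neg (hne x hx)]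
    simp
  rw [Finset.sum_congr rfl z3, z2, p1, p2, phi_single_neg, phi_single_neg, phi_zero]
  push_cast
  linear_combination (2 * ((phi ρ t (Finsupp.single 0 1 + Finsupp.single n 1) : ℂ) -
    phi ρ t (Finsupp.single 0 1 + Finsupp.single n (-1)))) * hκ2

end calc2

/-- The main construction: from a measure on the circle without mass at zero to an ergodic
system. -/
theorem exists_ergodic_system (ρ : Measure UnitAddCircle) [IsFiniteMeasure ρ] (hρ0 : ρ {0} = 0)
    (R : Set ℕ) (ε : ℝ) (hε : 0 < ε) (hR : ∀ n ∈ R, cof ρ (n : ℤ) ≤ -ε) (h0R : 0 ∉ R) :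
    ∃ P : Measure (ℕ → Bool), IsProbabilityMeasure P ∧ Ergodic shift P ∧
      P.real (cyl {0}) = 1 / 2 ∧
      ∃ δ : ℝ, 0 < δ ∧ ∀ n ∈ R, P.real (cyl {0} ∩ (shift^[n]) ⁻¹' cyl {0}) ≤
        P.real (cyl {0}) ^ 2 - δ := by
  obtain ⟨Λ, ρc, hρc, hat, hΛ, h0, hsplit⟩ := split ρ hρ0 (ε / 2) (by positivity)
  set w : UnitAddCircle → ℝ := fun θ => Real.sqrt ((ρ.real {θ} + ρ.real {-θ}) / 2) with hw
  have hwneg : ∀ θ, w (-θ) = w θ := by
    intro θ
    simp only [hw, neg_neg]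
    rw [add_comm]
  have hw0 : ∀ θ, 0 ≤ w θ := fun θ => Real.sqrt_nonneg _
  -- choice of the scale
  set W := ∑ θ ∈ Λ, w θ with hW
  set c0 := cof ρc 0 with hc0
  have hlim1 : Tendsto (fun s : ℝ => s * W) (𝓝[>] 0) (𝓝 0) := by
    have : Tendsto (fun s : ℝ => s * W) (𝓝 0) (𝓝 (0 * W)) :=
      (continuous_id.mul continuous_const).tendsto 0
    rw [zero_mul] at this
    exact this.mono_left nhdsWithin_le_nhds
  have hlim2 : Tendsto (fun s : ℝ => 2 * s ^ 2 * c0 ^ 2) (𝓝[>] 0) (𝓝 0) := by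
    have : Tendsto (fun s : ℝ => 2 * s ^ 2 * c0 ^ 2) (𝓝 0) (𝓝 (2 * 0 ^ 2 * c0 ^ 2)) := by
      apply Continuous.tendsto
      fun_prop
    have h00 : (2 : ℝ) * 0 ^ 2 * c0 ^ 2 = 0 := by ring
    rw [h00] at this
    exact this.mono_left nhdsWithin_le_nhds
  obtain ⟨s, hs1, hs2, hs⟩ := ((hlim1.eventually_lt_const one_pos).and
    ((hlim2.eventually_lt_const (by positivity : (0 : ℝ) < ε / 4)).and
      self_mem_nhdsWithin)).exists
  have hs0 : 0 < s := hs
  obtain ⟨P, hP, hPF⟩ := exists_P ρc s Λ w hs0.le hΛ hwneg hw0 hs1.le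
  have herg := ergodic_of_state ρc hat s Λ w P hPF
  have hhalf : P.real (cyl {0}) = 1 / 2 := by
    have h1 : (P.real (cyl {0}) : ℂ) = ((1 / 2 : ℝ) : ℂ) := by
      rw [hPF, pF, Finset.prod_singleton, Phi_tau_one, Phi_hel ρc s Λ w _ h0]
      push_cast
      rfl
    exact_mod_cast h1
  refine ⟨P, hP, herg, hhalf, s ^ 2 * ε / 64, by positivity, fun n hn => ?_⟩
  have hn0 : n ≠ 0 := by
    rintro rfl
    exact h0R hn
  have h1 : (P.real (cyl {0} ∩ (shift^[n]) ⁻¹' cyl {0}) : ℂ) =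
      Phi ρc (s ^ 2) (hel s Λ w * tau n (hel s Λ w)) := by
    rw [preimage_cyl, cyl_inter, hPF, pF_union s Λ w n {0} {0} (by simpa using Nat.pos_of_ne_zero hn0)]
    have h2 : pF s Λ w {0} = tau 0 (hel s Λ w) := by
      rw [pF, Finset.prod_singleton]
    have h3 : ∀ p : Alg, tau 0 p = p := by
      intro p
      induction p using alg_induction with
      | zero => simp
      | add x y hx hy => rw [map_add, hx, hy]
      | single u k c =>
        rw [tau_mon, shiftK_zero]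
        simp
    rw [h2, h3]
  rw [Phi_hel_mul ρc s Λ w _ h0 hΛ hwneg] at h1
  have h4 := congrArg Complex.re h1
  rw [Complex.ofReal_re, Complex.add_re, Complex.re_sum, phi_plus, phi_minus] at h4
  have h5 : (1 / 4 + 1 / 32 * ((Real.exp (-(s ^ 2 * (cof ρc 0 - cof ρc n))) : ℂ) -
      (Real.exp (-(s ^ 2 * (cof ρc 0 + cof ρc n))) : ℂ)) : ℂ).re =
      1 / 4 + 1 / 32 * (Real.exp (-(s ^ 2 * (cof ρc 0 - cof ρc n))) -
      Real.exp (-(s ^ 2 * (cof ρc 0 + cof ρc n)))) := by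
    have : (1 / 4 + 1 / 32 * ((Real.exp (-(s ^ 2 * (cof ρc 0 - cof ρc n))) : ℂ) -
      (Real.exp (-(s ^ 2 * (cof ρc 0 + cof ρc n))) : ℂ)) : ℂ) =
      ((1 / 4 + 1 / 32 * (Real.exp (-(s ^ 2 * (cof ρc 0 - cof ρc n))) -
      Real.exp (-(s ^ 2 * (cof ρc 0 + cof ρc n)))) : ℝ) : ℂ) := by
      push_cast
      ring
    rw [this, Complex.ofReal_re]
  have h6 : ∑ θ ∈ Λ, ((((s * w θ / 4) ^ 2 : ℝ) : ℂ) * fourier (n : ℤ) θ).re =
      s ^ 2 / 16 * ∑ θ ∈ Λ, ρ.real {θ} * (fourier (n : ℤ) θ).re := by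
    have h7 : ∀ θ ∈ Λ, ((((s * w θ / 4) ^ 2 : ℝ) : ℂ) * fourier (n : ℤ) θ).re =
        s ^ 2 / 16 * (1 / 2 * (ρ.real {θ} * (fourier (n : ℤ) θ).re) +
          1 / 2 * (ρ.real {-θ} * (fourier (n : ℤ) θ).re)) := by
      intro θ _
      rw [Complex.re_ofReal_mul]
      have h8 : w θ ^ 2 = (ρ.real {θ} + ρ.real {-θ}) / 2 :=
        Real.sq_sqrt (by positivity)
      rw [div_pow, mul_pow, h8]
      ring
    rw [Finset.sum_congr rfl h7, ← Finset.mul_sum, Finset.sum_add_distrib, ← Finset.mul_sum,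
      ← Finset.mul_sum]
    have h9 : ∑ θ ∈ Λ, ρ.real {-θ} * (fourier (n : ℤ) θ).re =
        ∑ θ ∈ Λ, ρ.real {θ} * (fourier (n : ℤ) θ).re := by
      refine Finset.sum_nbij' (fun θ => -θ) (fun θ => -θ) hΛ hΛ (by simp) (by simp) ?_
      intro θ _
      congr 1
      have : fourier (n : ℤ) (-θ) = conj (fourier (n : ℤ) θ) := by
        rw [← fourier_neg, fourier_apply, fourier_apply]
        congr 2
        rw [smul_neg, neg_smul]
      rw [this, Complex.conj_re]
    rw [h9]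
    ring
  rw [h5, h6] at h4
  have h10 := exp_diff_le ρc (s ^ 2) (by positivity) n
  have h11 := hsplit n
  have h12 := hR n hn
  rw [h4, hhalf]
  rw [← hc0] at h10 ⊢
  have hs2' : 2 * s ^ 2 * c0 ^ 2 ≤ ε / 4 := hs2.le
  set S := ∑ θ ∈ Λ, ρ.real {θ} * (fourier (n : ℤ) θ).re with hS
  have h13 : cof ρc n + S ≤ - (ε / 2) := by linarith
  have hsp : 0 < s ^ 2 := by positivity
  have h14 : s ^ 2 * (cof ρc n + S + 2 * s ^ 2 * c0 ^ 2) ≤ s ^ 2 * (-(ε / 4)) := by
    apply mul_le_mul_of_nonneg_left _ hsp.le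
    linarith
  nlinarith

end Pool.Agent.Helper11.NiceRec
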